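import Pool.Agent.Helper785_BG.Cyl
import Pool.Agent.NPC.Num

/-!
# The transfer matrix algorithm runs in polynomial time in the number of states
-/

set_option autoImplicit false

namespace Pool.Agent.Helper785.BG

open Pool.Agent.NPC

section

variable {α : Type} [TEnc α]

theorem size_pow_le (a n : ℕ) : (a ^ n).size ≤ n * a + 1 := by
  rw [Nat.size_le]
  calc a ^ n ≤ (2 ^ a) ^ n := Nat.pow_le_pow_left (Nat.lt_two_pow_self).le n
    _ = 2 ^ (n * a) := by rw [← pow_mul, mul_comm]
    _ < 2 ^ (n * a + 1) := Nat.pow_lt_pow_right (by norm_num) (by omega)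

/-- Every number computable in unary is polynomially bounded. -/
theorem UPoly.bound {n : α → ℕ} (hn : UPoly n) : ∃ q : Polynomial ℕ, ∀ a, n a ≤ q.eval (sz a) := by
  obtain ⟨q, hq⟩ := NPC.Poly.sz_le hn
  refine ⟨q, fun a => ?_⟩
  have h1 := length_lt_sz (List.replicate (n a) ())
  rw [List.length_replicate] at h1
  exact h1.le.trans (hq a)

/-- Powers of a fixed number with an exponent given in unary. -/
theorem poly_pow (k : ℕ) {n : α → ℕ} (hn : UPoly n) : Poly (fun a => k ^ n a) := by
  obtain ⟨q, hq⟩ := UPoly.bound ((UPoly.mul hn (UPoly.const (4 * k))).add (UPoly.const 5))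
  have key : ∀ j : ℕ, (fun x : ℕ => x * k)^[j] 1 = k ^ j := by
    intro j
    induction j with
    | zero => rfl
    | succ j ih => rw [Function.iterate_succ_apply', ih, pow_succ]
  refine (NPC.Poly.iterLen (l := fun a => List.replicate (n a) ()) (s := fun _ => 1)
    (F := fun _ x => x * k) hn (NPC.Poly.const 1) (NPC.Poly.mul (NPC.Poly.snd NPC.Poly.id) (NPC.Poly.const k)) q
    ?_).congr fun a => ?_
  · intro a j hj
    rw [List.length_replicate] at hj
    rw [key]
    have h1 := sz_nat_le (k ^ j)
    have h2 := size_pow_le k j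
    have h3 := hq a
    have h4 : j * k ≤ n a * k := Nat.mul_le_mul_right _ hj
    have h5 : n a * (4 * k) = 4 * (n a * k) := by ring
    omega
  · rw [List.length_replicate]
    exact key _

end

/-- The circumference used for an input of length `N`. -/
def cT (l : List Bool) : ℕ := l.length.size

theorem upoly_T : UPoly cT := by
  have h : UPoly (fun l : List Bool => l.length.bits.length) :=
    UPoly.length (NPC.Poly.natBits (NPC.Poly.length NPC.Poly.id))
  have h2 : (fun l : List Bool => l.length.bits.length) = cT := by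
    funext l
    unfold cT
    rw [Nat.size_eq_bits_len]
  rwa [h2] at h

theorem two_pow_size_le (N : ℕ) : 2 ^ N.size ≤ 2 * N + 1 := by
  rcases Nat.eq_zero_or_pos N with h | h
  · subst h; simp
  · have h1 : 0 < N.size := Nat.size_pos.2 h
    have h2 : 2 ^ (N.size - 1) ≤ N := by
      rw [← Nat.lt_size]; omega
    have h3 : 2 ^ N.size = 2 * 2 ^ (N.size - 1) := by
      rw [← pow_succ']
      congr 1
      omega
    omega

theorem upoly_K (k w : ℕ) : UPoly (fun l : List Bool => k ^ (w * cT l)) := by
  have h1 : Poly (fun l : List Bool => k ^ (w * cT l)) :=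
    poly_pow k (UPoly.mul (UPoly.const w) upoly_T)
  refine UPoly.of_le h1 (UPoly.eval (UPoly.length NPC.Poly.id)
    ((Polynomial.C 2 * Polynomial.X + Polynomial.C 1) ^ (k * w))) (fun l => ?_)
  simp only [Polynomial.eval_pow, Polynomial.eval_add, Polynomial.eval_mul, Polynomial.eval_C,
    Polynomial.eval_X]
  calc k ^ (w * cT l) ≤ (2 ^ k) ^ (w * cT l) :=
        Nat.pow_le_pow_left (Nat.lt_two_pow_self).le _
    _ = (2 ^ cT l) ^ (k * w) := by rw [← pow_mul, ← pow_mul]; congr 1; ring
    _ ≤ _ := Nat.pow_le_pow_left (two_pow_size_le _) _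

/-- Digits with a cut-off in the exponent. -/
def dgm (k w : ℕ) (l : List Bool) (s e : ℕ) : ℕ := s / k ^ (min e (w * cT l)) % k

theorem poly_dgm (k w : ℕ) {β : Type} [TEnc β] {l : β → List Bool} {s e : β → ℕ} (hl : Poly l)
    (hs : Poly s) (he : Poly e) : Poly (fun b => dgm k w (l b) (s b) (e b)) := by
  unfold dgm
  refine NPC.Poly.mod (NPC.Poly.div hs (poly_pow k ?_)) (NPC.Poly.const k)
  have h1 : UPoly (fun b => w * cT (l b)) := (UPoly.mul (UPoly.const w) upoly_T).comp hl
  exact UPoly.of_le (NPC.Poly.min he h1.toPoly) h1 (fun b => min_le_right _ _)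

theorem dgm_eq {k w : ℕ} {l : List Bool} {s e : ℕ} (he : e ≤ w * cT l) : dgm k w l s e = dg k s e := by
  unfold dgm dg
  rw [min_eq_left he]

theorem poly_good (k w : ℕ) (G : List (List ℕ)) {β : Type} [TEnc β] {l : β → List Bool}
    {s : β → ℕ} (hl : Poly l) (hs : Poly s) : Poly (fun b => good k w (cT (l b)) G (s b)) := by
  have hT : UPoly (fun b => cT (l b)) := upoly_T.comp hl
  have h1 : Poly (fun b => (List.range (cT (l b))).all (fun i => decide ((List.range (w * w)).map
      (fun n => dgm k w (l b) (s b) ((i + n % w) % cT (l b) + cT (l b) * (n / w))) ∈ G))) := by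
    refine NPC.Poly.all (p := fun b i => decide ((List.range (w * w)).map
      (fun n => dgm k w (l b) (s b) ((i + n % w) % cT (l b) + cT (l b) * (n / w))) ∈ G))
      hT.range ?_
    refine (NPC.Poly.decide_mem (f := fun p : β × ℕ => (List.range (w * w)).map
      (fun n => dgm k w (l p.1) (s p.1) ((p.2 + n % w) % cT (l p.1) + cT (l p.1) * (n / w))))
      (l := fun _ => G) ?_ (NPC.Poly.const G)).congr (fun a => by rw [decide_eq_decide])
    refine NPC.Poly.map (F := fun (p : β × ℕ) n => dgm k w (l p.1) (s p.1)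
      ((p.2 + n % w) % cT (l p.1) + cT (l p.1) * (n / w))) (NPC.Poly.const _) ?_
    have hb : Poly (fun p : (β × ℕ) × ℕ => p.1.1) := NPC.Poly.fst (NPC.Poly.fst NPC.Poly.id)
    have hi : Poly (fun p : (β × ℕ) × ℕ => p.1.2) := NPC.Poly.snd (NPC.Poly.fst NPC.Poly.id)
    have hn : Poly (fun p : (β × ℕ) × ℕ => p.2) := NPC.Poly.snd NPC.Poly.id
    have hT' : Poly (fun p : (β × ℕ) × ℕ => cT (l p.1.1)) := (hT.comp hb).toPoly
    exact poly_dgm k w (hl.comp hb) (hs.comp hb)
      (NPC.Poly.add (NPC.Poly.mod (NPC.Poly.add hi (NPC.Poly.mod hn (NPC.Poly.const w))) hT')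
        (NPC.Poly.mul hT' (NPC.Poly.div hn (NPC.Poly.const w))))
  refine h1.congr (fun b => ?_)
  unfold good
  rw [Bool.eq_iff_iff]
  simp only [List.all_eq_true, List.mem_range, decide_eq_true_eq]
  refine forall₂_congr (fun i hi => ?_)
  have h2 : (List.range (w * w)).map
      (fun n => dgm k w (l b) (s b) ((i + n % w) % cT (l b) + cT (l b) * (n / w))) =
      wl w (fun a b' => dg k (s b) ((i + a) % cT (l b) + cT (l b) * b')) := by
    unfold wl
    refine List.map_congr_left (fun n hn => ?_)
    rw [List.mem_range] at hn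
    have hw : 0 < w := by
      rcases Nat.eq_zero_or_pos w with h0 | h0
      · subst h0; simp at hn
      · exact h0
    refine dgm_eq (digit_idx (Nat.mod_lt _ (by omega)) ((Nat.div_lt_iff_lt_mul hw).2 hn)).le
  rw [h2]

theorem poly_stp (k w : ℕ) {β : Type} [TEnc β] {l : β → List Bool}
    {s t : β → ℕ} (hl : Poly l) (hs : Poly s) (ht : Poly t) :
    Poly (fun b => stp k w (cT (l b)) (s b) (t b)) := by
  have hT : UPoly (fun b => cT (l b)) := upoly_T.comp hl
  have h1 : Poly (fun b => (List.range ((w - 1) * cT (l b))).all (fun e =>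
      decide (dgm k w (l b) (s b) (e + cT (l b)) = dgm k w (l b) (t b) e))) := by
    refine NPC.Poly.all (p := fun b e => decide (dgm k w (l b) (s b) (e + cT (l b)) =
      dgm k w (l b) (t b) e)) (UPoly.mul (UPoly.const _) hT).range ?_
    have hb : Poly (fun p : β × ℕ => p.1) := NPC.Poly.fst NPC.Poly.id
    have he : Poly (fun p : β × ℕ => p.2) := NPC.Poly.snd NPC.Poly.id
    have hT' : Poly (fun p : β × ℕ => cT (l p.1)) := (hT.comp hb).toPoly
    exact NPC.Poly.decide_eq (poly_dgm k w (hl.comp hb) (hs.comp hb) (NPC.Poly.add he hT'))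
      (poly_dgm k w (hl.comp hb) (ht.comp hb) he)
  refine h1.congr (fun b => ?_)
  unfold stp
  rw [Bool.eq_iff_iff]
  simp only [List.all_eq_true, List.mem_range, decide_eq_true_eq]
  refine forall₂_congr (fun e he => ?_)
  have hw : (w - 1) * cT (l b) + cT (l b) ≤ w * cT (l b) := by
    rcases Nat.eq_zero_or_pos w with h0 | h0
    · subst h0; simp at he
    · obtain ⟨v, rfl⟩ := Nat.exists_eq_succ_of_ne_zero h0.ne'
      simp only [Nat.succ_eq_add_one, Nat.add_sub_cancel]
      rw [Nat.add_mul, one_mul]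
  rw [dgm_eq (by omega), dgm_eq (by omega)]

/-- One step of the recursion on vectors. -/
def vstep (k w : ℕ) (G : List (List ℕ)) (l : List Bool) (v : List ℕ) : List ℕ :=
  (List.range (k ^ (w * cT l))).map (fun s => ((List.range (k ^ (w * cT l))).map (fun t =>
    if (good k w (cT l) G s && stp k w (cT l) s t) = true then v.getD t 0 else 0)).sum)

/-- The start vector. -/
def vinit (k w : ℕ) (G : List (List ℕ)) (l : List Bool) : List ℕ :=
  (List.range (k ^ (w * cT l))).map (fun s => if good k w (cT l) G s = true then 1 else 0)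

theorem poly_vinit (k w : ℕ) (G : List (List ℕ)) : Poly (vinit k w G) := by
  unfold vinit
  refine NPC.Poly.map (F := fun l s => if good k w (cT l) G s = true then 1 else 0)
    (upoly_K k w).range ?_
  refine NPC.Poly.ite (NPC.Poly.decide_bool (poly_good k w G (NPC.Poly.fst NPC.Poly.id) (NPC.Poly.snd NPC.Poly.id)))
    (NPC.Poly.const 1) (NPC.Poly.const 0)

theorem poly_vstep (k w : ℕ) (G : List (List ℕ)) :
    Poly (fun p : List Bool × List ℕ => vstep k w G p.1 p.2) := by
  unfold vstep
  refine NPC.Poly.map (F := fun (p : List Bool × List ℕ) s =>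
    ((List.range (k ^ (w * cT p.1))).map (fun t =>
    if (good k w (cT p.1) G s && stp k w (cT p.1) s t) = true then p.2.getD t 0 else 0)).sum)
    ((upoly_K k w).comp (NPC.Poly.fst NPC.Poly.id)).range ?_
  refine NPC.Poly.sum (NPC.Poly.map (F := fun (p : (List Bool × List ℕ) × ℕ) t =>
    if (good k w (cT p.1.1) G p.2 && stp k w (cT p.1.1) p.2 t) = true then p.1.2.getD t 0 else 0)
    ((upoly_K k w).comp (NPC.Poly.fst (NPC.Poly.fst NPC.Poly.id))).range ?_)
  have hl : Poly (fun p : ((List Bool × List ℕ) × ℕ) × ℕ => p.1.1.1) :=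
    NPC.Poly.fst (NPC.Poly.fst (NPC.Poly.fst NPC.Poly.id))
  have hv : Poly (fun p : ((List Bool × List ℕ) × ℕ) × ℕ => p.1.1.2) :=
    NPC.Poly.snd (NPC.Poly.fst (NPC.Poly.fst NPC.Poly.id))
  have hs : Poly (fun p : ((List Bool × List ℕ) × ℕ) × ℕ => p.1.2) :=
    NPC.Poly.snd (NPC.Poly.fst NPC.Poly.id)
  have ht : Poly (fun p : ((List Bool × List ℕ) × ℕ) × ℕ => p.2) := NPC.Poly.snd NPC.Poly.id
  exact NPC.Poly.ite (NPC.Poly.decide_bool (NPC.Poly.and (poly_good k w G hl hs) (poly_stp k w hl hs ht)))
    (NPC.Poly.getD hv ht (NPC.Poly.const 0)) (NPC.Poly.const 0)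

theorem cnt_le (K : ℕ) (g : ℕ → Bool) (r : ℕ → ℕ → Bool) : ∀ m s, cnt K g r m s ≤ K ^ m := by
  intro m
  induction m with
  | zero => intro s; unfold cnt; split_ifs <;> simp
  | succ m ih =>
    intro s
    unfold cnt
    calc (∑ t ∈ Finset.range K, if (g s && r s t) = true then cnt K g r m t else 0)
        ≤ ∑ t ∈ Finset.range K, K ^ m := by
          refine Finset.sum_le_sum (fun t _ => ?_)
          split_ifs
          · exact ih t
          · exact Nat.zero_le _
      _ = K ^ (m + 1) := by simp [pow_succ, mul_comm]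

theorem sum_map_range (n : ℕ) (f : ℕ → ℕ) :
    ((List.range n).map f).sum = ∑ i ∈ Finset.range n, f i := by
  induction n with
  | zero => simp
  | succ n ih => rw [List.range_succ, List.map_append, List.sum_append, ih, Finset.sum_range_succ]; simp

theorem vstep_iterate (k w : ℕ) (G : List (List ℕ)) (l : List Bool) : ∀ m : ℕ,
    (vstep k w G l)^[m] (vinit k w G l) = (List.range (k ^ (w * cT l))).map
      (cnt (k ^ (w * cT l)) (good k w (cT l) G) (stp k w (cT l)) m) := by
  intro m
  induction m with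
  | zero => rfl
  | succ m ih =>
    rw [Function.iterate_succ_apply', ih]
    unfold vstep
    refine List.map_congr_left (fun s _ => ?_)
    rw [sum_map_range]
    conv_rhs => unfold cnt
    refine Finset.sum_congr rfl (fun t ht => ?_)
    rw [Finset.mem_range] at ht
    congr 1
    rw [List.getD_eq_getElem?_getD, List.getElem?_map, List.getElem?_range ht]
    rfl

/-- The number of steps. -/
def cm (k w : ℕ) (l : List Bool) : ℕ := k ^ (w * cT l) * (cT l + 2)

theorem upoly_cm (k w : ℕ) : UPoly (cm k w) :=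
  UPoly.mul (upoly_K k w) (UPoly.add upoly_T (UPoly.const 2))

theorem poly_vec (k w : ℕ) (G : List (List ℕ)) :
    Poly (fun l => (vstep k w G l)^[cm k w l] (vinit k w G l)) := by
  obtain ⟨q, hq⟩ := UPoly.bound (UPoly.add (UPoly.mul (upoly_K k w)
    (UPoly.add (UPoly.mul (UPoly.const 4) (UPoly.mul (upoly_cm k w) (upoly_K k w)))
      (UPoly.const 6))) (UPoly.const 1))
  refine (NPC.Poly.iterLen (l := fun l => List.replicate (cm k w l) ()) (s := vinit k w G)
    (F := vstep k w G) (upoly_cm k w) (poly_vinit k w G) (poly_vstep k w G) q ?_).congr fun l => ?_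
  · intro l j hj
    rw [List.length_replicate] at hj
    rw [vstep_iterate]
    refine le_trans ?_ (hq l)
    have h1 := sz_le_length_mul ((List.range (k ^ (w * cT l))).map
      (cnt (k ^ (w * cT l)) (good k w (cT l) G) (stp k w (cT l)) j))
      (4 * (cm k w l * k ^ (w * cT l)) + 5) (by
        intro a ha
        rw [List.mem_map] at ha
        obtain ⟨s, _, rfl⟩ := ha
        have h2 := cnt_le (k ^ (w * cT l)) (good k w (cT l) G) (stp k w (cT l)) j s
        have h3 := sz_nat_le (cnt (k ^ (w * cT l)) (good k w (cT l) G) (stp k w (cT l)) j s)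
        have h4 := Nat.size_le_size h2
        have h5 := size_pow_le (k ^ (w * cT l)) j
        have h6 : j * k ^ (w * cT l) ≤ cm k w l * k ^ (w * cT l) := Nat.mul_le_mul_right _ hj
        omega)
    rw [List.length_map, List.length_range] at h1
    refine h1.trans (le_of_eq ?_)
    ring
  · rw [List.length_replicate]

/-- The number `∑_{j < T} ⌊T² / (T + j + 1)⌋`, close to `T² log 2`. -/
def lnum (T : ℕ) : ℕ := ∑ j ∈ Finset.range T, T * T / (T + j + 1)

/-- The output of the algorithm: numerator and denominator. -/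
def out (k w : ℕ) (G : List (List ℕ)) (l : List Bool) : ℕ × ℕ :=
  ((total (k ^ (w * cT l)) (good k w (cT l) G) (stp k w (cT l)) (cm k w l)).size * lnum (cT l),
    cT l * (k ^ (w * cT l) * cT l) * (cT l * cT l))

/-- **The algorithm runs in polynomial time.** -/
theorem poly_out (k w : ℕ) (G : List (List ℕ)) : Poly (out k w G) := by
  have hT : Poly cT := upoly_T.toPoly
  have hK : Poly (fun l : List Bool => k ^ (w * cT l)) := (upoly_K k w).toPoly
  have h1 : Poly (fun l => ((vstep k w G l)^[cm k w l] (vinit k w G l)).sum) :=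
    NPC.Poly.sum (poly_vec k w G)
  have h2 : Poly (fun l => (((vstep k w G l)^[cm k w l] (vinit k w G l)).sum).bits.length) :=
    NPC.Poly.length (NPC.Poly.natBits h1)
  have h3 : Poly (fun l => ((List.range (cT l)).map
      (fun j => cT l * cT l / (cT l + j + 1))).sum) := by
    refine NPC.Poly.sum (NPC.Poly.map (F := fun l j => cT l * cT l / (cT l + j + 1)) upoly_T.range ?_)
    have hT' : Poly (fun p : List Bool × ℕ => cT p.1) := hT.comp (NPC.Poly.fst NPC.Poly.id)
    exact NPC.Poly.div (NPC.Poly.mul hT' hT') (NPC.Poly.succ (NPC.Poly.add hT' (NPC.Poly.snd NPC.Poly.id)))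
  refine (NPC.Poly.pair (NPC.Poly.mul h2 h3) (NPC.Poly.mul (NPC.Poly.mul hT (NPC.Poly.mul hK hT))
    (NPC.Poly.mul hT hT))).congr (fun l => ?_)
  unfold out total lnum
  rw [vstep_iterate, sum_map_range, sum_map_range, Nat.size_eq_bits_len]

end Pool.Agent.Helper785.BG
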