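import Pool.Agent.Helper785_BG.Algo

/-!
# The error of the transfer matrix algorithm
-/

set_option autoImplicit false

namespace Pool.Agent.Helper785.BG

open Pool.Agent.Helper785.SIEnt

theorem sum_inv_le (T : ℕ) (hT : 0 < T) :
    ∑ j ∈ Finset.range T, (1 : ℝ) / (T + j + 1) ≤ Real.log 2 := by
  have hT' : (0 : ℝ) < T := by exact_mod_cast hT
  have key : ∀ n : ℕ, ∑ j ∈ Finset.range n, (1 : ℝ) / (T + j + 1) ≤
      Real.log (T + n) - Real.log T := by
    intro n
    induction n with
    | zero => simp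
    | succ n ih =>
      rw [Finset.sum_range_succ]
      have h1 : (0 : ℝ) < T + n := by positivity
      have h2 : (0 : ℝ) < T + n + 1 := by positivity
      have h3 := Real.one_sub_inv_le_log_of_pos (x := (T + n + 1) / (T + n)) (by positivity)
      rw [Real.log_div h2.ne' h1.ne'] at h3
      have h4 : 1 - ((T + n + 1 : ℝ) / (T + n))⁻¹ = 1 / (T + n + 1) := by
        field_simp; ring
      rw [h4] at h3
      push_cast
      rw [← add_assoc]
      linarith
  have := key T
  have h2 : Real.log ((T : ℝ) + T) - Real.log T = Real.log 2 := by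
    rw [← two_mul, Real.log_mul (by norm_num) hT'.ne']; ring
  linarith

theorem le_sum_inv (T : ℕ) (hT : 0 < T) :
    Real.log 2 - 1 / T ≤ ∑ j ∈ Finset.range T, (1 : ℝ) / (T + j + 1) := by
  have hT' : (0 : ℝ) < T := by exact_mod_cast hT
  have key : ∀ n : ℕ, Real.log (T + n) - Real.log T - 1 / T + 1 / (T + n) ≤
      ∑ j ∈ Finset.range n, (1 : ℝ) / (T + j + 1) := by
    intro n
    induction n with
    | zero => simp
    | succ n ih =>
      rw [Finset.sum_range_succ]
      have h1 : (0 : ℝ) < T + n := by positivity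
      have h2 : (0 : ℝ) < T + n + 1 := by positivity
      have h3 := Real.log_le_sub_one_of_pos (x := (T + n + 1) / (T + n)) (by positivity)
      rw [Real.log_div h2.ne' h1.ne'] at h3
      have h4 : ((T + n + 1 : ℝ) / (T + n)) - 1 = 1 / (T + n) := by
        field_simp; ring
      rw [h4] at h3
      push_cast
      rw [← add_assoc]
      linarith
  have := key T
  have h2 : Real.log ((T : ℝ) + T) - Real.log T = Real.log 2 := by
    rw [← two_mul, Real.log_mul (by norm_num) hT'.ne']; ring
  have h3 : (0 : ℝ) ≤ 1 / (T + T) := by positivity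
  linarith

theorem lnum_bounds (T : ℕ) (hT : 0 < T) :
    |(lnum T : ℝ) / (T * T) - Real.log 2| ≤ 2 / T := by
  have hT' : (0 : ℝ) < T := by exact_mod_cast hT
  have h1 : (lnum T : ℝ) ≤ T * T * ∑ j ∈ Finset.range T, (1 : ℝ) / (T + j + 1) := by
    unfold lnum
    push_cast
    rw [Finset.mul_sum]
    refine Finset.sum_le_sum (fun j _ => ?_)
    refine (Nat.cast_div_le).trans (le_of_eq ?_)
    push_cast
    ring
  have h2 : T * T * (∑ j ∈ Finset.range T, (1 : ℝ) / (T + j + 1)) - T ≤ lnum T := by
    unfold lnum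
    push_cast
    have h3 : ∀ j ∈ Finset.range T, T * T * ((1 : ℝ) / (T + j + 1)) - 1 ≤
        ((T * T / (T + j + 1) : ℕ) : ℝ) := by
      intro j _
      have h4 := Nat.lt_div_mul_add (a := T * T) (b := T + j + 1) (by omega)
      have h5 : ((T * T : ℕ) : ℝ) < ((T * T / (T + j + 1) * (T + j + 1) + (T + j + 1) : ℕ) : ℝ) := by
        exact_mod_cast h4
      push_cast at h5
      have h6 : (0 : ℝ) < T + j + 1 := by positivity
      rw [sub_le_iff_le_add, mul_one_div, div_le_iff₀ h6]
      nlinarith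
    have h7 := Finset.sum_le_sum h3
    rw [Finset.sum_sub_distrib, ← Finset.mul_sum] at h7
    simp only [Finset.sum_const, Finset.card_range, nsmul_eq_mul, mul_one] at h7
    exact h7
  have h3 := sum_inv_le T hT
  have h4 := le_sum_inv T hT
  set S := ∑ j ∈ Finset.range T, (1 : ℝ) / (T + j + 1)
  have h5 : (lnum T : ℝ) / (T * T) ≤ S := by
    rw [div_le_iff₀ (by positivity)]; linarith
  have h6 : S - 1 / T ≤ (lnum T : ℝ) / (T * T) := by
    rw [le_div_iff₀ (by positivity), sub_mul]
    have : 1 / (T : ℝ) * (T * T) = T := by field_simp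
    rw [this]
    linarith
  rw [abs_le]
  have h7 : (2 : ℝ) / T = 1 / T + 1 / T := by ring
  constructor
  · rw [h7]; linarith
  · have : (0 : ℝ) ≤ 2 / T := by positivity
    linarith

theorem log_two_bounds : (1 : ℝ) / 2 ≤ Real.log 2 ∧ Real.log 2 ≤ 1 := by
  have h1 := Real.log_two_gt_d9
  have h2 := Real.log_two_lt_d9
  constructor <;> linarith

theorem size_bounds {Z : ℕ} (hZ : 0 < Z) :
    Real.log Z ≤ Z.size * Real.log 2 ∧ Z.size * Real.log 2 ≤ Real.log Z + Real.log 2 := by
  have hZ' : (0 : ℝ) < Z := by exact_mod_cast hZ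
  have h1 : (Z : ℝ) ≤ 2 ^ Z.size := by exact_mod_cast (Nat.lt_size_self Z).le
  have h2 : 0 < Z.size := Nat.size_pos.2 hZ
  have h3 : 2 ^ (Z.size - 1) ≤ Z := by rw [← Nat.lt_size]; omega
  have h4 : (2 : ℝ) ^ (Z.size - 1) ≤ Z := by exact_mod_cast h3
  have h5 := Real.log_le_log hZ' h1
  rw [Real.log_pow] at h5
  have h6 := Real.log_le_log (by positivity) h4
  rw [Real.log_pow, Nat.cast_sub h2, Nat.cast_one] at h6
  constructor <;> linarith

theorem entropy_nonneg {d : ℕ} {A : Type} {X : Set ((Fin d → ℤ) → A)} {h : ℝ}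
    (hent : HasEntropy X h) : 0 ≤ h := by
  refine ge_of_tendsto' hent (fun k => ?_)
  refine div_nonneg ?_ (by positivity)
  rcases Nat.eq_zero_or_pos (patternCount X k) with h0 | h0
  · rw [h0]; simp
  · exact Real.log_nonneg (by exact_mod_cast h0)

/-- **The error bound.** -/
theorem out_bound {A : Type} [Finite A] {k : ℕ} (e : A ≃ Fin k) {X : Set ((Fin 2 → ℤ) → A)} {h : ℝ}
    (hent : HasEntropy X h) (hne : X.Nonempty) {M w : ℕ} (hM : 1 ≤ M) (hX : Glue X M) (hw : 1 ≤ w)
    {G : List (List ℕ)}
    (hG : ∀ y : (Fin 2 → ℤ) → A, y ∈ X ↔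
      ∀ i j : ℤ, wl w (fun a b => (e (y ![i + a, j + b]) : ℕ)) ∈ G) :
    ∃ C : ℝ, 0 ≤ C ∧ ∀ l : List Bool, w + M ≤ cT l → 0 < (out k w G l).2 ∧
      |h - ((out k w G l).1 : ℝ) / ((out k w G l).2 : ℝ)| ≤ C / (cT l : ℝ) := by
  have h0 := entropy_nonneg hent
  have hk : 0 < k := by
    obtain ⟨x, _⟩ := hne
    exact lt_of_le_of_lt (Nat.zero_le _) (e (x 0)).2
  have hlogk : 0 ≤ Real.log k := Real.log_nonneg (by exact_mod_cast hk)
  set C1 : ℝ := h * M + 2 * w * Real.log k + h * (1 + M) * (w + M) with hC1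
  have hC1nn : 0 ≤ C1 := by positivity
  refine ⟨4 * (C1 + h) + 5 + C1, by positivity, ?_⟩
  intro l hl
  set T := cT l with hT
  set K := k ^ (w * T) with hK
  have hTpos : 0 < T := by omega
  have hKpos : 0 < K := pow_pos hk _
  have hT' : (0 : ℝ) < T := by exact_mod_cast hTpos
  have hT1 : (1 : ℝ) ≤ T := by exact_mod_cast hTpos
  have hK' : (1 : ℝ) ≤ K := by exact_mod_cast hKpos
  set m := cm k w l with hm
  have hmeq : m = K * (T + 2) := rfl
  set Z := total K (good k w T G) (stp k w T) m with hZ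
  -- lower bound
  have hMT : M ≤ T := by omega
  have hlow : rc X (T - M) (m + w) ≤ Z := by
    have := rc_le_total e hw hG hX (T - M) (by omega) m
    rwa [Nat.sub_add_cancel hMT] at this
  have hZpos : 0 < Z := (rc_pos hne _ _).trans_le hlow
  have hZ' : (0 : ℝ) < Z := by exact_mod_cast hZpos
  have hlow2 : h * ((T - M) * (K * T)) ≤ Real.log Z := by
    have h1 := entropy_mul_le hent hne hX.shift (T - M) (m + w)
    have h2 : Real.log (rc X (T - M) (m + w)) ≤ Real.log Z :=
      Real.log_le_log (by exact_mod_cast rc_pos hne _ _) (by exact_mod_cast hlow)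
    refine le_trans ?_ (h1.trans h2)
    refine mul_le_mul_of_nonneg_left ?_ h0
    rw [Nat.cast_sub hMT]
    have h3 : (0 : ℝ) ≤ (T : ℝ) - M := by
      have : (M : ℝ) ≤ T := by exact_mod_cast hMT
      linarith
    refine mul_le_mul_of_nonneg_left ?_ h3
    rw [hmeq]
    push_cast
    nlinarith
  -- upper bound
  have hupp : Z ≤ K ^ (2 * K) * rc X T (m - 2 * K + w) :=
    total_le e hk hw hG T (by omega) m (by rw [hmeq]; nlinarith)
  have hm2 : m - 2 * K = K * T := by rw [hmeq, Nat.mul_add]; omega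
  rw [hm2] at hupp
  have hlogK : Real.log K = w * T * Real.log k := by
    rw [hK, Nat.cast_pow, Real.log_pow]; push_cast; ring
  have hupp2 : Real.log Z ≤ 2 * K * (w * T * Real.log k) + h * ((T + M) * (K * T + w + M)) := by
    have h1 : Real.log Z ≤ Real.log ((K ^ (2 * K) * rc X T (K * T + w) : ℕ) : ℝ) :=
      Real.log_le_log hZ' (by exact_mod_cast hupp)
    refine h1.trans ?_
    have h2 : (0 : ℝ) < rc X T (K * T + w) := by exact_mod_cast rc_pos hne _ _
    push_cast
    rw [Real.log_mul (by positivity) h2.ne', Real.log_pow, hlogK]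
    have h3 := log_rc_le hent hne hM hX T (K * T + w)
    push_cast at h3 ⊢
    linarith
  set D : ℝ := T * (K * T) with hD
  have hDpos : 0 < D := by positivity
  have hDT : (T : ℝ) ≤ D := by
    rw [hD]
    have : (1 : ℝ) ≤ K * T := by nlinarith
    nlinarith
  have hD1 : (1 : ℝ) ≤ D := hT1.trans hDT
  have hmain : |Real.log Z - h * D| ≤ C1 * (K * T) := by
    rw [abs_le]
    constructor
    · have h1 : h * D - h * M * (K * T) ≤ Real.log Z := by
        refine le_trans (le_of_eq ?_) hlow2
        rw [hD]; ring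
      have h2 : h * M ≤ C1 := by
        rw [hC1]
        have : 0 ≤ 2 * w * Real.log k + h * (1 + M) * (w + M) := by positivity
        linarith
      have h3 : h * M * (K * T) ≤ C1 * (K * T) := mul_le_mul_of_nonneg_right h2 (by positivity)
      linarith
    · have h1 : 2 * K * (w * T * Real.log k) = 2 * w * Real.log k * (K * T) := by ring
      have h2 : ((T : ℝ) + M) * (K * T + w + M) = D + M * (K * T) + (T + M) * (w + M) := by
        rw [hD]; ring
      have h3 : ((T : ℝ) + M) * (w + M) ≤ (1 + M) * (w + M) * (K * T) := by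
        have h4 : (T : ℝ) + M ≤ (1 + M) * T := by
          have : (0 : ℝ) ≤ M := by positivity
          nlinarith
        have h5 : (T : ℝ) ≤ K * T := by nlinarith
        calc ((T : ℝ) + M) * (w + M) ≤ ((1 + M) * T) * (w + M) :=
              mul_le_mul_of_nonneg_right h4 (by positivity)
          _ ≤ ((1 + M) * (K * T)) * (w + M) :=
              mul_le_mul_of_nonneg_right (mul_le_mul_of_nonneg_left h5 (by positivity))
                (by positivity)
          _ = _ := by ring
      rw [h1, h2] at hupp2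
      have h6 := mul_le_mul_of_nonneg_left h3 h0
      rw [hC1]
      nlinarith
  have hsz := size_bounds hZpos
  have hl2 := log_two_bounds
  have hln := lnum_bounds T hTpos
  set b : ℝ := (Z.size : ℝ) with hb
  set ℓ : ℝ := (lnum T : ℝ) / (T * T) with hℓ
  have hKD : (K : ℝ) * T = D / T := by rw [hD]; field_simp
  have hbD : b ≤ 2 * (C1 + h) * D + 2 := by
    have h1 := (abs_le.1 hmain).2
    have h2 : (K : ℝ) * T ≤ D := by rw [hD]; nlinarith [mul_nonneg (by positivity : (0:ℝ) ≤ K * T) (by linarith : (0:ℝ) ≤ (T:ℝ) - 1)]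
    have h3 : C1 * (K * T) ≤ C1 * D := mul_le_mul_of_nonneg_left h2 hC1nn
    have hbnn : 0 ≤ b := by positivity
    nlinarith [hsz.2, mul_le_mul_of_nonneg_left hl2.1 hbnn]
  have hbnn : 0 ≤ b := by positivity
  have hout1 : ((out k w G l).1 : ℝ) = b * lnum T := by
    simp only [out]
    push_cast
    rfl
  have hout2 : ((out k w G l).2 : ℝ) = D * (T * T) := by
    simp only [out]
    push_cast
    rw [hD, hK]
    push_cast
    ring
  constructor
  · have : (0 : ℝ) < ((out k w G l).2 : ℝ) := by rw [hout2]; positivity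
    exact_mod_cast this
  · rw [hout1, hout2]
    have h1 : b * (lnum T : ℝ) / (D * (T * T)) = b * ℓ / D := by
      rw [hℓ]; field_simp
    rw [h1]
    have h2 : |b * ℓ - Real.log Z| ≤ 2 * b / T + 1 := by
      have h3 : |b * (ℓ - Real.log 2)| ≤ b * (2 / T) := by
        rw [abs_mul, abs_of_nonneg hbnn]
        exact mul_le_mul_of_nonneg_left hln hbnn
      have h4 : |b * Real.log 2 - Real.log Z| ≤ 1 := by
        rw [abs_le]; constructor <;> linarith [hsz.1, hsz.2]
      have h5 : b * ℓ - Real.log Z = b * (ℓ - Real.log 2) + (b * Real.log 2 - Real.log Z) := by ring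
      rw [h5]
      refine (abs_add_le _ _).trans ?_
      have h6 : b * (2 / T) = 2 * b / T := by ring
      rw [← h6]
      exact add_le_add h3 h4
    have h3 : |h * D - b * ℓ| ≤ C1 * (D / T) + 2 * b / T + 1 := by
      have h4 : h * D - b * ℓ = -(Real.log Z - h * D) - (b * ℓ - Real.log Z) := by ring
      rw [h4]
      refine (abs_sub _ _).trans ?_
      rw [abs_neg, ← hKD]
      linarith
    have h4 : h - b * ℓ / D = (h * D - b * ℓ) / D := by field_simp
    rw [h4, abs_div, abs_of_pos hDpos, div_le_div_iff₀ hDpos hT']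
    have h5 : (C1 * (D / T) + 2 * b / T + 1) * T = C1 * D + 2 * b + T := by field_simp
    have h6 : |h * D - b * ℓ| * T ≤ C1 * D + 2 * b + T := by
      rw [← h5]
      exact mul_le_mul_of_nonneg_right h3 hT'.le
    refine h6.trans ?_
    nlinarith

end Pool.Agent.Helper785.BG
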