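import Mathlib

/-!
# Chains of a finite relation

Counting chains by iterating a linear recursion, and extending the middle part of a long chain to
a two-sided infinite chain.
-/

set_option autoImplicit false

namespace Pool.Agent.Helper785.BG

variable {S : Type}

/-- A walk with at least as many steps as there are states can be continued forever. -/
theorem exists_forward [Fintype S] (r : S → S → Prop) (γ : ℕ → S)
    (h : ∀ n < Fintype.card S, r (γ n) (γ (n + 1))) :
    ∃ δ : ℕ → S, δ 0 = γ 0 ∧ ∀ n, r (δ n) (δ (n + 1)) := by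
  classical
  obtain ⟨i, j, hij, heq⟩ : ∃ i j : Fin (Fintype.card S + 1), i < j ∧ γ i = γ j := by
    obtain ⟨i, j, hne, heq⟩ := Fintype.exists_ne_map_eq_of_card_lt
      (fun i : Fin (Fintype.card S + 1) => γ i) (by simp)
    rcases lt_or_gt_of_ne hne with h | h
    · exact ⟨i, j, h, heq⟩
    · exact ⟨j, i, h, heq.symm⟩
  have hj := j.2
  have hij' : (i : ℕ) < j := hij
  have hp : 0 < (j : ℕ) - i := by omega
  refine ⟨fun n => if n < i then γ n else γ (i + (n - i) % (j - i)), ?_, ?_⟩
  · by_cases h0 : 0 < (i : ℕ)
    · simp only [h0, if_true]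
    · simp only [h0, if_false]
      have : (i : ℕ) = 0 := by omega
      simp [this]
  · intro n
    by_cases h1 : n + 1 < i
    · have h2 : n < i := by omega
      simp only [h1, h2, if_true]
      exact h n (by omega)
    · by_cases h2 : n < i
      · have h3 : n + 1 = i := by omega
        simp only [h2, if_true, h1, if_false]
        rw [h3]
        simp only [Nat.sub_self, Nat.zero_mod, add_zero]
        rw [← h3]
        exact h n (by omega)
      · simp only [h2, h1, if_false]
        obtain ⟨q, hq⟩ : ∃ q, n = i + q := ⟨n - i, by omega⟩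
        subst hq
        rw [show (i : ℕ) + q - i = q by omega, show (i : ℕ) + q + 1 - i = q + 1 by omega]
        set p := (j : ℕ) - i with hpdef
        have hlt := Nat.mod_lt q hp
        by_cases h4 : q % p + 1 < p
        · have h5 : (q + 1) % p = q % p + 1 := by
            rw [Nat.add_mod]
            rcases Nat.lt_or_ge 1 p with h6 | h6
            · rw [Nat.mod_eq_of_lt h6, Nat.mod_eq_of_lt h4]
            · omega
          rw [h5, ← add_assoc]
          exact h _ (by omega)
        · have h5 : q % p + 1 = p := by omega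
          have h6 : (q + 1) % p = 0 := by
            rw [← Nat.mod_add_mod, h5, Nat.mod_self]
          rw [h6, add_zero]
          have h7 : γ i = γ (i + q % p + 1) := by
            rw [heq]
            congr 1
            omega
          rw [h7]
          exact h _ (by omega)

/-- A walk with many steps: its middle part extends to a two-sided infinite walk. -/
theorem exists_biinfinite [Fintype S] (r : S → S → Prop) (γ : ℕ → S) (K m : ℕ)
    (hK : Fintype.card S ≤ K) (hm : 2 * K ≤ m) (h : ∀ n < m, r (γ n) (γ (n + 1))) :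
    ∃ δ : ℤ → S, (∀ t : ℕ, t ≤ m - 2 * K → δ t = γ (K + t)) ∧ ∀ t, r (δ t) (δ (t + 1)) := by
  obtain ⟨φ, hφ0, hφ⟩ := exists_forward r (fun n => γ (m - K + n)) (by
    intro n hn
    have := h (m - K + n) (by omega)
    exact this)
  obtain ⟨β, hβ0, hβ⟩ := exists_forward (fun a b => r b a) (fun n => γ (K - n)) (by
    intro n hn
    have := h (K - (n + 1)) (by omega)
    rw [show K - (n + 1) + 1 = K - n by omega] at this
    exact this)
  simp only [Nat.sub_zero, add_zero] at hβ0 hφ0
  refine ⟨fun t => if t < 0 then β (-t).toNat else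
    if t ≤ ((m - 2 * K : ℕ) : ℤ) then γ (K + t.toNat) else φ (t - ((m - 2 * K : ℕ) : ℤ)).toNat,
    ?_, ?_⟩
  · intro t ht
    have h1 : ¬ ((t : ℤ) < 0) := by omega
    have h2 : (t : ℤ) ≤ ((m - 2 * K : ℕ) : ℤ) := by exact_mod_cast ht
    simp only [h1, h2, if_true, if_false]
    simp
  · intro t
    by_cases h1 : t < 0
    · have hb := hβ ((-t).toNat - 1)
      rw [show (-t).toNat - 1 + 1 = (-t).toNat by omega] at hb
      by_cases h2 : t + 1 < 0
      · simp only [h1, h2, if_true]
        rw [show (-(t + 1)).toNat = (-t).toNat - 1 by omega]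
        exact hb
      · have h3 : t = -1 := by omega
        subst h3
        have h4 : (0 : ℤ) ≤ ((m - 2 * K : ℕ) : ℤ) := by omega
        simp only [h1, if_true, show ((-1 : ℤ) + 1) = 0 by norm_num, lt_irrefl, if_false, h4]
        simp only [Int.toNat_zero, add_zero]
        simp only [neg_neg, Int.toNat_one, Nat.sub_self] at hb ⊢
        rw [hβ0] at hb
        exact hb
    · have h1' : ¬ (t + 1 < 0) := by omega
      by_cases h2 : t + 1 ≤ ((m - 2 * K : ℕ) : ℤ)
      · have h2' : t ≤ ((m - 2 * K : ℕ) : ℤ) := by omega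
        simp only [h1, h1', h2, h2', if_true, if_false]
        rw [show K + (t + 1).toNat = K + t.toNat + 1 by omega]
        exact h _ (by omega)
      · by_cases h3 : t ≤ ((m - 2 * K : ℕ) : ℤ)
        · have h4 : t = ((m - 2 * K : ℕ) : ℤ) := by omega
          simp only [h1, h1', h2, h3, if_true, if_false]
          rw [h4]
          have hf := hφ 0
          rw [hφ0] at hf
          rw [show K + ((m - 2 * K : ℕ) : ℤ).toNat = m - K by omega,
            show (((m - 2 * K : ℕ) : ℤ) + 1 - ((m - 2 * K : ℕ) : ℤ)).toNat = 0 + 1 by omega]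
          exact hf
        · simp only [h1, h1', h2, h3, if_false]
          have hf := hφ (t - ((m - 2 * K : ℕ) : ℤ)).toNat
          rw [show (t - ((m - 2 * K : ℕ) : ℤ)).toNat + 1 =
            (t + 1 - ((m - 2 * K : ℕ) : ℤ)).toNat by omega] at hf
          exact hf

/-- The number of chains with `m` steps starting from a given state. -/
def cnt (K : ℕ) (g : ℕ → Bool) (r : ℕ → ℕ → Bool) : ℕ → ℕ → ℕ
  | 0, s => if g s then 1 else 0
  | m + 1, s => ∑ t ∈ Finset.range K, if (g s && r s t) then cnt K g r m t else 0

/-- Chains. -/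
def IsChain (K : ℕ) (g : ℕ → Bool) (r : ℕ → ℕ → Bool) (m : ℕ) (γ : Fin (m + 1) → Fin K) : Prop :=
  (∀ i, g (γ i) = true) ∧ ∀ i : Fin m, r (γ i.castSucc) (γ i.succ) = true

theorem isChain_cons (K : ℕ) (g : ℕ → Bool) (r : ℕ → ℕ → Bool) (m : ℕ) (s : Fin K)
    (γ : Fin (m + 1) → Fin K) :
    IsChain K g r (m + 1) (Fin.cons s γ) ↔ (g s = true ∧ r s (γ 0) = true) ∧ IsChain K g r m γ := by
  unfold IsChain
  constructor
  · rintro ⟨h1, h2⟩
    refine ⟨⟨by simpa using h1 0, by simpa using h2 0⟩, fun i => by simpa using h1 i.succ, ?_⟩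
    intro i
    have := h2 i.succ
    rw [← Fin.succ_castSucc] at this
    simpa using this
  · rintro ⟨⟨h1, h2⟩, h3, h4⟩
    refine ⟨fun i => ?_, fun i => ?_⟩
    · refine Fin.cases ?_ (fun i => ?_) i
      · simpa using h1
      · simpa using h3 i
    · refine Fin.cases ?_ (fun i => ?_) i
      · simpa using h2
      · rw [← Fin.succ_castSucc]
        simpa using h4 i

open Classical in
theorem cnt_eq (K : ℕ) (g : ℕ → Bool) (r : ℕ → ℕ → Bool) : ∀ (m : ℕ) (s : Fin K),
    cnt K g r m s = ∑ γ : Fin (m + 1) → Fin K, if (IsChain K g r m γ ∧ γ 0 = s) then 1 else 0 := by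
  intro m
  induction m with
  | zero =>
    intro s
    rw [Finset.sum_eq_single (fun _ => s)]
    · simp [cnt, IsChain]
    · intro γ _ hγ
      rw [if_neg]
      rintro ⟨_, h⟩
      apply hγ
      funext i
      rw [← h]
      congr 1
      exact Subsingleton.elim (α := Fin 1) _ _
    · intro h; exact absurd (Finset.mem_univ _) h
  | succ m ih =>
    intro s
    have e := (Fin.consEquiv (fun _ : Fin (m + 2) => Fin K)).sum_comp
      (fun γ : Fin (m + 2) → Fin K => if (IsChain K g r (m + 1) γ ∧ γ 0 = s) then (1 : ℕ) else 0)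
    rw [← e, Fintype.sum_prod_type]
    simp only [Fin.consEquiv_apply, Fin.cons_zero]
    rw [Finset.sum_eq_single s]
    · simp only [and_true]
      have h1 : ∀ γ : Fin (m + 1) → Fin K, (if IsChain K g r (m + 1) (Fin.cons s γ) then (1 : ℕ)
          else 0) = ∑ t : Fin K, if (g s && r s t) then
            (if (IsChain K g r m γ ∧ γ 0 = t) then 1 else 0) else 0 := by
        intro γ
        rw [Finset.sum_eq_single (γ 0)]
        · simp only [isChain_cons, Bool.and_eq_true]
          by_cases h1 : g s = true ∧ r s (γ 0) = true <;> by_cases h2 : IsChain K g r m γ <;>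
            simp [h1, h2]
        · intro t _ ht
          rw [if_neg (show ¬ (IsChain K g r m γ ∧ γ 0 = t) from fun h => ht h.2.symm)]
          simp
        · intro h; exact absurd (Finset.mem_univ _) h
      have h0 : (∑ x : Fin (m + 1) → Fin K,
          if IsChain K g r (m + 1) ((Fin.consEquiv fun _ : Fin (m + 2) => Fin K) (s, x)) then (1 : ℕ)
          else 0) = ∑ γ : Fin (m + 1) → Fin K,
            if IsChain K g r (m + 1) (Fin.cons s γ) then (1 : ℕ) else 0 := rfl
      rw [h0, Finset.sum_congr rfl (fun γ _ => h1 γ), Finset.sum_comm]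
      rw [cnt, Finset.sum_range]
      refine Finset.sum_congr rfl (fun t _ => ?_)
      split_ifs with h2
      · exact ih t
      · simp
    · intro t _ ht
      refine Finset.sum_eq_zero (fun γ _ => ?_)
      rw [if_neg]
      rintro ⟨_, h⟩
      exact ht h
    · intro h; exact absurd (Finset.mem_univ _) h

/-- The total number of chains with `m` steps. -/
def total (K : ℕ) (g : ℕ → Bool) (r : ℕ → ℕ → Bool) (m : ℕ) : ℕ :=
  ∑ s ∈ Finset.range K, cnt K g r m s

theorem total_eq (K : ℕ) (g : ℕ → Bool) (r : ℕ → ℕ → Bool) (m : ℕ) :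
    total K g r m = Nat.card {γ : Fin (m + 1) → Fin K // IsChain K g r m γ} := by
  classical
  unfold total
  rw [Finset.sum_range, Finset.sum_congr rfl (fun s _ => cnt_eq K g r m s), Finset.sum_comm,
    Nat.card_eq_fintype_card, Fintype.card_subtype, Finset.card_filter]
  refine Finset.sum_congr rfl (fun γ _ => ?_)
  rw [Finset.sum_eq_single (γ 0)]
  · simp
  · intro t _ ht
    rw [if_neg]
    rintro ⟨_, h⟩
    exact ht h.symm
  · intro h; exact absurd (Finset.mem_univ _) h

end Pool.Agent.Helper785.BG
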