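import Pool.Agent.Helper785_BG.Win
import Pool.Agent.Helper785_BG.Chain

/-!
# Counting the patterns on a cylinder

For a block gluing shift of finite type on `ℤ²`, the numbers of chains of states of a cylinder of
circumference `T` are compared with the numbers of rectangular patterns.
-/

set_option autoImplicit false

namespace Pool.Agent.Helper785.BG

open Pool.Agent.Helper785.SIEnt

/-- The digit number `e` of `s` in base `k`. -/
def dg (k s e : ℕ) : ℕ := s / k ^ e % k

/-- All the windows of a state of the cylinder are allowed. -/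
def good (k w T : ℕ) (G : List (List ℕ)) (s : ℕ) : Bool :=
  (List.range T).all (fun i => decide (wl w (fun a b => dg k s ((i + a) % T + T * b)) ∈ G))

/-- Two states of the cylinder overlap. -/
def stp (k w T s t : ℕ) : Bool :=
  (List.range ((w - 1) * T)).all (fun e => decide (dg k s (e + T) = dg k t e))

theorem good_iff {k w T : ℕ} {G : List (List ℕ)} {s : ℕ} : good k w T G s = true ↔
    ∀ i < T, wl w (fun a b => dg k s ((i + a) % T + T * b)) ∈ G := by
  unfold good
  simp only [List.all_eq_true, List.mem_range, decide_eq_true_eq]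

theorem stp_iff {k w T s t : ℕ} : stp k w T s t = true ↔
    ∀ e < (w - 1) * T, dg k s (e + T) = dg k t e := by
  unfold stp
  simp only [List.all_eq_true, List.mem_range, decide_eq_true_eq]

theorem dg_enc {k n : ℕ} (f : Fin n → Fin k) (i : Fin n) :
    dg k (finFunctionFinEquiv f : Fin (k ^ n)) i = f i := by
  have := congrFun (finFunctionFinEquiv.symm_apply_apply f) i
  have h2 := congrArg (fun x : Fin k => (x : ℕ)) this
  exact h2

theorem eq_of_dg {k n : ℕ} (s t : Fin (k ^ n)) (h : ∀ i < n, dg k s i = dg k t i) : s = t := by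
  apply finFunctionFinEquiv.symm.injective
  funext i
  apply Fin.ext
  exact h i i.2

theorem digit_idx {T w i b : ℕ} (hi : i < T) (hb : b < w) : i + T * b < w * T := by
  have : T * (b + 1) ≤ T * w := Nat.mul_le_mul_left _ hb
  rw [Nat.mul_add] at this
  rw [mul_comm w T]
  omega

theorem split_idx {T w e : ℕ} (he : e < w * T) : e % T < T ∧ e / T < w ∧ e = e % T + T * (e / T) := by
  have hT : 0 < T := by
    rcases Nat.eq_zero_or_pos T with h | h
    · subst h; simp at he
    · exact h
  exact ⟨Nat.mod_lt _ hT, (Nat.div_lt_iff_lt_mul hT).2 he, (Nat.mod_add_div _ _).symm⟩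

variable {A : Type} {k : ℕ}

/-- The state of the cylinder at height `t` read off from the first `T` columns. -/
def st (e : A ≃ Fin k) (w T : ℕ) (z : (Fin 2 → ℤ) → A) (t : ℕ) : Fin (k ^ (w * T)) :=
  finFunctionFinEquiv (fun n : Fin (w * T) => e (z ![((n % T : ℕ) : ℤ), ((t + n / T : ℕ) : ℤ)]))

theorem dg_st (e : A ≃ Fin k) (w T : ℕ) (z : (Fin 2 → ℤ) → A) (t : ℕ) {i b : ℕ} (hi : i < T)
    (hb : b < w) : dg k (st e w T z t) (i + T * b) = e (z ![(i : ℤ), ((t + b : ℕ) : ℤ)]) := by
  have h1 := dg_enc (fun n : Fin (w * T) => e (z ![((n % T : ℕ) : ℤ), ((t + n / T : ℕ) : ℤ)]))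
    ⟨i + T * b, digit_idx hi hb⟩
  have h2 : (i + T * b) % T = i := by
    rw [Nat.add_mul_mod_self_left, Nat.mod_eq_of_lt hi]
  have h3 : (i + T * b) / T = b := by
    rw [Nat.add_mul_div_left _ _ (by omega), Nat.div_eq_of_lt hi, zero_add]
  simp only [h2, h3] at h1
  exact h1

/-- **Lower bound**: many chains of states. -/
theorem rc_le_total [Finite A] (e : A ≃ Fin k) {X : Set ((Fin 2 → ℤ) → A)} {M w : ℕ}
    {G : List (List ℕ)} (hw : 1 ≤ w)
    (hG : ∀ y : (Fin 2 → ℤ) → A, y ∈ X ↔
      ∀ i j : ℤ, wl w (fun a b => (e (y ![i + a, j + b]) : ℕ)) ∈ G)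
    (hX : Glue X M) (R : ℕ) (hR : w ≤ R) (m : ℕ) :
    rc X R (m + w) ≤ total (k ^ (w * (R + M))) (good k w (R + M) G) (stp k w (R + M)) m := by
  classical
  set T := R + M with hT
  rw [total_eq]
  unfold rc
  rw [← Nat.card_coe_set_eq]
  have hex : ∀ u : (pat R (m + w) '' X), ∃ z ∈ X, ∃ x ∈ X, pat R (m + w) x = u.1 ∧
      (∀ i j : ℕ, i < R → j < m + w → z ![(i : ℤ), (j : ℤ)] = x ![(i : ℤ), (j : ℤ)]) ∧
      (∀ i j : ℕ, i < R → j < m + w → z ![((T + i : ℕ) : ℤ), (j : ℤ)] = x ![(i : ℤ), (j : ℤ)]) := by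
    rintro ⟨u, x, hx, rfl⟩
    have hy := hX.shift x hx (-(T : ℤ)) 0
    obtain ⟨z, hz, h1, h2⟩ := hX.hor x hx _ hy 0 R 0 (m + w : ℕ) T (T + R : ℕ) 0 (m + w : ℕ)
      (by rw [hT]; push_cast; exact le_rfl)
    refine ⟨z, hz, x, hx, rfl, ?_, ?_⟩
    · intro i j hi hj
      exact h1 _ _ (by omega) (by omega) (by omega) (by omega)
    · intro i j hi hj
      rw [h2 _ _ (by omega) (by omega) (by omega) (by omega)]
      simp
  choose z hz x hx hxu h1 h2 using hex
  have hperiodic : ∀ u (i a t : ℕ), i < T → a < w → t < m + w →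
      z u ![((i + a : ℕ) : ℤ), (t : ℤ)] = z u ![(((i + a) % T : ℕ) : ℤ), (t : ℤ)] := by
    intro u i a t hi ha ht
    rcases Nat.lt_or_ge (i + a) T with h | h
    · rw [Nat.mod_eq_of_lt h]
    · obtain ⟨q, hq⟩ := Nat.exists_eq_add_of_le h
      have hqR : q < R := by omega
      rw [hq, Nat.add_mod_left, Nat.mod_eq_of_lt (by omega), h2 u q t hqR ht, h1 u q t hqR ht]
  have hchain : ∀ u, IsChain (k ^ (w * T)) (good k w T G) (stp k w T) m
      (fun t => st e w T (z u) t) := by
    intro u
    constructor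
    · intro t
      rw [good_iff]
      intro i hi
      have hwin := (hG (z u)).1 (hz u) i ((t : ℕ) : ℤ)
      convert! hwin using 1
      apply wl_congr
      intro a ha b hb
      have hTpos : 0 < T := by omega
      rw [dg_st e w T (z u) t (Nat.mod_lt _ hTpos) hb]
      congr 1
      rw [← hperiodic u i a (t + b) hi ha (by have := t.2; omega)]
      push_cast
      rfl
    · intro t
      rw [stp_iff]
      intro n hn
      obtain ⟨g1, g2, g3⟩ := split_idx hn
      have h3 : n + T = n % T + T * (n / T + 1) := by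
        rw [Nat.mul_add, mul_one]; omega
      rw [h3, dg_st e w T (z u) _ g1 (by omega)]
      conv_rhs => rw [g3]
      rw [dg_st e w T (z u) _ g1 (by omega)]
      congr 3
      simp only [Fin.val_castSucc, Fin.val_succ]
      rw [show (t : ℕ) + (n / T + 1) = (t : ℕ) + 1 + n / T by ring]
  refine Nat.card_le_card_of_injective (fun u => ⟨_, hchain u⟩) ?_
  intro u u' huu
  have hst := congrArg Subtype.val huu
  simp only at hst
  apply Subtype.ext
  rw [← hxu u, ← hxu u']
  funext i j
  simp only [pat]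
  rw [← h1 u i j i.2 j.2, ← h1 u' i j i.2 j.2]
  have hiT : (i : ℕ) < T := by have := i.2; omega
  rcases Nat.lt_or_ge (j : ℕ) (m + 1) with hj | hj
  · have h4 := congrFun hst ⟨j, hj⟩
    simp only at h4
    have h5 := dg_st e w T (z u) j hiT (show 0 < w by omega)
    have h6 := dg_st e w T (z u') j hiT (show 0 < w by omega)
    rw [h4, h6] at h5
    simp only [Nat.add_zero] at h5
    exact (e.injective (Fin.ext h5)).symm
  · obtain ⟨q, hq⟩ := Nat.exists_eq_add_of_le (show m ≤ (j : ℕ) by omega)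
    have hqw : q < w := by have := j.2; omega
    have h4 := congrFun hst ⟨m, by omega⟩
    simp only at h4
    have h5 := dg_st e w T (z u) m hiT hqw
    have h6 := dg_st e w T (z u') m hiT hqw
    rw [h4, h6, ← hq] at h5
    exact (e.injective (Fin.ext h5)).symm

theorem stp_iter {w T : ℕ} {K : ℕ} {δ : ℤ → Fin K} (h : ∀ t, stp k w T (δ t) (δ (t + 1)) = true) :
    ∀ (b i : ℕ) (t : ℤ), i < T → b < w → dg k (δ t) (i + T * b) = dg k (δ (t + b)) i := by
  intro b
  induction b with
  | zero => intro i t _ _; simp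
  | succ b ih =>
    intro i t hi hb
    have h1 := stp_iff.1 (h t) (i + T * b) (by
      have : T * (b + 1) ≤ T * (w - 1) := Nat.mul_le_mul_left _ (by omega)
      rw [Nat.mul_add] at this
      rw [mul_comm (w - 1) T]
      omega)
    rw [Nat.mul_add, mul_one, ← add_assoc, h1, ih i (t + 1) hi (by omega)]
    push_cast
    rw [show t + 1 + (b : ℤ) = t + ((b : ℤ) + 1) by ring]

/-- **Upper bound**: not too many chains of states. -/
theorem total_le [Finite A] (e : A ≃ Fin k) (hk : 0 < k) {X : Set ((Fin 2 → ℤ) → A)} {w : ℕ}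
    {G : List (List ℕ)} (hw : 1 ≤ w)
    (hG : ∀ y : (Fin 2 → ℤ) → A, y ∈ X ↔
      ∀ i j : ℤ, wl w (fun a b => (e (y ![i + a, j + b]) : ℕ)) ∈ G)
    (T : ℕ) (hT : w ≤ T) (m : ℕ) (hm : 2 * k ^ (w * T) ≤ m) :
    total (k ^ (w * T)) (good k w T G) (stp k w T) m ≤
      (k ^ (w * T)) ^ (2 * k ^ (w * T)) * rc X T (m - 2 * k ^ (w * T) + w) := by
  classical
  set K := k ^ (w * T) with hK
  rw [total_eq]
  unfold rc
  rw [← Nat.card_coe_set_eq]
  have hKcard : Fintype.card (Fin K) ≤ K := by simp
  have hTpos : 0 < T := by omega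
  have hex : ∀ γ : {γ : Fin (m + 1) → Fin K // IsChain K (good k w T G) (stp k w T) m γ},
      ∃ y ∈ X, ∀ t : ℕ, (ht : t ≤ m - 2 * K) → ∀ i b : ℕ, i < T → b < w →
        dg k (γ.1 ⟨K + t, by omega⟩) (i + T * b) = e (y ![(i : ℤ), ((t + b : ℕ) : ℤ)]) := by
    rintro ⟨γ, hγ1, hγ2⟩
    let γ' : ℕ → {s : Fin K // good k w T G s = true} := fun n => ⟨γ ⟨min n m, by omega⟩, hγ1 _⟩
    have hcard : Fintype.card {s : Fin K // good k w T G s = true} ≤ K :=
      (Fintype.card_subtype_le _).trans (by simp)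
    have hγ' : ∀ (n : ℕ) (hn : n < m + 1), (γ' n).1 = γ ⟨n, hn⟩ := by
      intro n hn
      exact congrArg γ (Fin.ext (min_eq_left (by omega)))
    obtain ⟨δ, hδ1, hδ2⟩ := exists_biinfinite
      (fun a b : {s : Fin K // good k w T G s = true} => stp k w T a.1 b.1 = true) γ' K m hcard hm
      (by
        intro n hn
        have := hγ2 ⟨n, hn⟩
        rw [hγ' n (by omega), hγ' (n + 1) (by omega)]
        exact this)
    have hstep : ∀ t, stp k w T ((δ t).1 : Fin K) ((δ (t + 1)).1 : Fin K) = true := hδ2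
    have hit := stp_iter (k := k) (δ := fun t => (δ t).1) hstep
    have hlt : ∀ s n, dg k s n < k := fun s n => Nat.mod_lt _ hk
    refine ⟨fun v => e.symm ⟨dg k ((δ (v 1)).1 : Fin K) ((v 0) % T).toNat, hlt _ _⟩, ?_, ?_⟩
    · rw [hG]
      intro i j
      have hg := good_iff.1 (δ j).2 ((i % T).toNat) (by
        have := Int.emod_lt_of_pos i (show (0 : ℤ) < T by omega)
        omega)
      convert! hg using 1
      apply wl_congr
      intro a ha b hb
      simp only [Matrix.cons_val_zero, Matrix.cons_val_one, Matrix.cons_val_fin_one,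
        Equiv.apply_symm_apply]
      rw [hit b (((i % T).toNat + a) % T) j (Nat.mod_lt _ hTpos) hb]
      congr 1
      have h0 := Int.emod_nonneg i (show (T : ℤ) ≠ 0 by omega)
      have h1 : (((((i % T).toNat + a) % T : ℕ) : ℤ)) = (i + a) % T := by
        push_cast
        rw [Int.toNat_of_nonneg h0, Int.emod_add_emod]
      have h2 := congrArg Int.toNat h1
      rw [Int.toNat_natCast] at h2
      exact h2.symm
    · intro t ht i b hi hb
      have h3 := hδ1 t ht
      have h4 := hit b i t hi hb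
      simp only [Matrix.cons_val_zero, Matrix.cons_val_one, Matrix.cons_val_fin_one,
        Equiv.apply_symm_apply]
      have h5 : ((i : ℤ) % T).toNat = i := by
        rw [Int.emod_eq_of_lt (by omega) (by omega), Int.toNat_natCast]
      rw [h5]
      push_cast
      rw [← h4, h3, hγ' (K + t) (by omega)]
  choose y hy1 hy2 using hex
  have hfun : Nat.card ((Fin (2 * K) → Fin K) × (pat T (m - 2 * K + w) '' X)) =
      K ^ (2 * K) * Nat.card (pat T (m - 2 * K + w) '' X) := by
    rw [Nat.card_prod, Nat.card_fun]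
    simp
  rw [← hfun]
  refine Nat.card_le_card_of_injective (fun γ => (fun n : Fin (2 * K) =>
    if (n : ℕ) < K then γ.1 ⟨n, by omega⟩ else γ.1 ⟨m - (n - K), by omega⟩,
    ⟨pat T (m - 2 * K + w) (y γ), y γ, hy1 γ, rfl⟩)) ?_
  intro γ γ' h
  simp only [Prod.mk.injEq, Subtype.mk.injEq] at h
  obtain ⟨ha, hb⟩ := h
  apply Subtype.ext
  funext n
  have hn := n.2
  rcases Nat.lt_or_ge (n : ℕ) K with h1 | h1
  · have h2 := congrFun ha ⟨n, by omega⟩
    simp only [h1, if_true] at h2
    exact h2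
  · rcases Nat.lt_or_ge (m - K) (n : ℕ) with h2 | h2
    · have h3 := congrFun ha ⟨m - n + K, by omega⟩
      simp only at h3
      rw [if_neg (by omega), if_neg (by omega)] at h3
      have h4 : (⟨m - (m - (n : ℕ) + K - K), by omega⟩ : Fin (m + 1)) = n := by
        ext; simp; omega
      rw [h4] at h3
      exact h3
    · obtain ⟨t, ht⟩ := Nat.exists_eq_add_of_le h1
      have htm : t ≤ m - 2 * K := by omega
      have hnt : n = ⟨K + t, by omega⟩ := Fin.ext ht
      rw [hnt]
      refine eq_of_dg _ _ (fun q hq => ?_)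
      obtain ⟨g1, g2, g3⟩ := split_idx hq
      rw [g3, hy2 γ t htm _ _ g1 g2, hy2 γ' t htm _ _ g1 g2]
      have h5 := congrFun (congrFun hb ⟨q % T, g1⟩) ⟨t + q / T, by omega⟩
      simp only [pat] at h5
      rw [h5]

end Pool.Agent.Helper785.BG
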