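import Pool.Agent.NPC.Num

/-!
# Exponential time from polynomial time

A program which blows up its unary input exponentially, followed by a polynomial-time program.
-/

set_option autoImplicit false

namespace Pool.Agent.Helper785.BG

open Pool.Agent.NPC Turing

/-- Stack contents: `a` on stack `0`, `b` marks on stack `1`, `c` marks on stack `2`. -/
def S3 (a : List Bool) (b c : ℕ) : ℕ → List Bool := fun i =>
  if i = 0 then a else if i = 1 then List.replicate b true else if i = 2 then
    List.replicate c true else []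

theorem S3_inp (a : List Bool) : S3 a 0 0 = (inp a : ℕ → List Bool) := by
  funext i
  unfold S3 inp
  by_cases h : i = 0
  · subst h; simp
  · simp only [h, if_false, Function.update_of_ne h]
    split_ifs <;> rfl

theorem S3_push1 (a : List Bool) (b c : ℕ) :
    Function.update (S3 a b c) 1 (true :: S3 a b c 1) = S3 a (b + 1) c := by
  funext i
  by_cases h : i = 1
  · subst h
    simp only [Function.update_self, S3]
    simp [List.replicate_succ]
  · simp only [Function.update_of_ne h, S3, h, if_false]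

theorem S3_push2 (a : List Bool) (b c : ℕ) :
    Function.update (S3 a b c) 2 (true :: S3 a b c 2) = S3 a b (c + 1) := by
  funext i
  by_cases h : i = 2
  · subst h
    simp only [Function.update_self, S3]
    simp [List.replicate_succ]
  · simp only [Function.update_of_ne h, S3, h, if_false]

theorem S3_push0 (a : List Bool) (b c : ℕ) (x : Bool) :
    Function.update (S3 a b c) 0 (x :: S3 a b c 0) = S3 (x :: a) b c := by
  funext i
  by_cases h : i = 0
  · subst h
    simp only [Function.update_self, S3]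
    simp
  · simp only [Function.update_of_ne h, S3, h, if_false]

theorem S3_pop1 (a : List Bool) (b c : ℕ) :
    Function.update (S3 a (b + 1) c) 1 (S3 a (b + 1) c 1).tail = S3 a b c := by
  funext i
  by_cases h : i = 1
  · subst h
    simp only [Function.update_self, S3]
    simp [List.replicate_succ]
  · simp only [Function.update_of_ne h, S3, h, if_false]

theorem S3_pop2 (a : List Bool) (b c : ℕ) :
    Function.update (S3 a b (c + 1)) 2 (S3 a b (c + 1) 2).tail = S3 a b c := by
  funext i
  by_cases h : i = 2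
  · subst h
    simp only [Function.update_self, S3]
    simp [List.replicate_succ]
  · simp only [Function.update_of_ne h, S3, h, if_false]

theorem S3_pop0 (a : List Bool) (b c : ℕ) (x : Bool) :
    Function.update (S3 (x :: a) b c) 0 (S3 (x :: a) b c 0).tail = S3 a b c := by
  funext i
  by_cases h : i = 0
  · subst h
    simp only [Function.update_self, S3]
    simp
  · simp only [Function.update_of_ne h, S3, h, if_false]

theorem S3_1 (a : List Bool) (b c : ℕ) : S3 a b c 1 = List.replicate b true := by simp [S3]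
theorem S3_2 (a : List Bool) (b c : ℕ) : S3 a b c 2 = List.replicate c true := by simp [S3]
theorem S3_0 (a : List Bool) (b c : ℕ) : S3 a b c 0 = a := by simp [S3]

theorem run_loop1 : ∀ (n : ℕ) (a : List Bool) (c : ℕ),
    Runs (Cmd.loop 1 (Cmd.seq (Cmd.pop 1) (Cmd.seq (Cmd.push 2 true) (Cmd.push 2 true))))
      (S3 a n c) (S3 a 0 (c + 2 * n)) (4 * n + 1) := by
  intro n
  induction n with
  | zero => intro a c; exact (Runs.loopNil (S3_1 a 0 c)).mono (by omega)
  | succ n ih =>
    intro a c
    have h1 : Runs (Cmd.seq (Cmd.pop 1) (Cmd.seq (Cmd.push 2 true) (Cmd.push 2 true)))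
        (S3 a (n + 1) c) (S3 a n (c + 1 + 1)) (1 + (1 + 1)) := by
      have e1 := Runs.pop (S3 a (n + 1) c) 1
      rw [S3_pop1] at e1
      have e2 := Runs.push (S3 a n c) 2 true
      rw [S3_push2] at e2
      have e3 := Runs.push (S3 a n (c + 1)) 2 true
      rw [S3_push2] at e3
      exact e1.seq (e2.seq e3)
    have h2 := ih a (c + 1 + 1)
    refine (Runs.loopCons (by rw [S3_1]; simp) h1 h2).conv rfl ?_ (by omega)
    rw [show c + 1 + 1 + 2 * n = c + 2 * (n + 1) by ring]

theorem run_loop2 : ∀ (n : ℕ) (a : List Bool) (b : ℕ),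
    Runs (Cmd.loop 2 (Cmd.seq (Cmd.pop 2) (Cmd.push 1 true)))
      (S3 a b n) (S3 a (b + n) 0) (3 * n + 1) := by
  intro n
  induction n with
  | zero => intro a b; exact (Runs.loopNil (S3_2 a b 0)).mono (by omega)
  | succ n ih =>
    intro a b
    have h1 : Runs (Cmd.seq (Cmd.pop 2) (Cmd.push 1 true))
        (S3 a b (n + 1)) (S3 a (b + 1) n) (1 + 1) := by
      have e1 := Runs.pop (S3 a b (n + 1)) 2
      rw [S3_pop2] at e1
      have e2 := Runs.push (S3 a b n) 1 true
      rw [S3_push1] at e2
      exact e1.seq e2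
    have h2 := ih a (b + 1)
    refine (Runs.loopCons (by rw [S3_2]; simp) h1 h2).conv rfl ?_ (by omega)
    rw [show b + 1 + n = b + (n + 1) by ring]

/-- Doubling the number of marks on stack `1`. -/
def dbl : Cmd ℕ := Cmd.seq
  (Cmd.loop 1 (Cmd.seq (Cmd.pop 1) (Cmd.seq (Cmd.push 2 true) (Cmd.push 2 true))))
  (Cmd.loop 2 (Cmd.seq (Cmd.pop 2) (Cmd.push 1 true)))

theorem run_dbl (n : ℕ) (a : List Bool) : Runs dbl (S3 a n 0) (S3 a (2 * n) 0) (10 * n + 2) := by
  have h1 := run_loop1 n a 0
  have h2 := run_loop2 (2 * n) a 0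
  rw [zero_add] at h1 h2
  exact (h1.seq h2).mono (by omega)

/-- Doubling `c` times. -/
def rep : ℕ → Cmd ℕ
  | 0 => Cmd.skip
  | c + 1 => Cmd.seq dbl (rep c)

theorem run_rep : ∀ (c n : ℕ) (a : List Bool),
    Runs (rep c) (S3 a n 0) (S3 a (2 ^ c * n) 0) (10 * (2 ^ c * n) + 2 * c + 1) := by
  have key : ∀ (c n : ℕ) (a : List Bool), ∃ t, t + 10 * n ≤ 10 * (2 ^ c * n) + 2 * c + 1 ∧
      Runs (rep c) (S3 a n 0) (S3 a (2 ^ c * n) 0) t := by
    intro c
    induction c with
    | zero =>
      intro n a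
      refine ⟨1, by omega, ?_⟩
      have h0 : (2 : ℕ) ^ 0 * n = n := by rw [pow_zero, one_mul]
      rw [h0]
      exact Runs.skip (S3 a n 0)
    | succ c ih =>
      intro n a
      obtain ⟨t, ht, h⟩ := ih (2 * n) a
      refine ⟨10 * n + 2 + t, ?_, ?_⟩
      · have : 2 ^ (c + 1) * n = 2 ^ c * (2 * n) := by rw [pow_succ]; ring
        rw [this]
        omega
      · have := (run_dbl n a).seq h
        refine this.conv rfl ?_ le_rfl
        rw [pow_succ]
        congr 1
        ring
  intro c n a
  obtain ⟨t, ht, h⟩ := key c n a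
  exact h.mono (by omega)

theorem run_main (c : ℕ) : ∀ (x : List Bool) (n : ℕ),
    Runs (Cmd.loop 0 (Cmd.seq (Cmd.pop 0) (rep c))) (S3 x n 0) (S3 [] (2 ^ (c * x.length) * n) 0)
      (x.length * (10 * (2 ^ (c * x.length) * n) + 2 * c + 3) + 1) := by
  intro x
  induction x with
  | nil =>
    intro n
    refine (Runs.loopNil (S3_0 [] n 0)).conv rfl ?_ (by simp)
    simp
  | cons b x ih =>
    intro n
    have e1 := Runs.pop (S3 (b :: x) n 0) 0
    rw [S3_pop0] at e1
    have e2 := run_rep c n x
    have h2 := ih (2 ^ c * n)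
    refine (Runs.loopCons (by rw [S3_0]; simp) (e1.seq e2) h2).conv rfl ?_ ?_
    · congr 1
      rw [← mul_assoc, ← pow_add, List.length_cons, Nat.mul_add, mul_one]
    · rw [List.length_cons]
      have h3 : 2 ^ (c * x.length) * (2 ^ c * n) = 2 ^ (c * (x.length + 1)) * n := by
        rw [← mul_assoc, ← pow_add, Nat.mul_add, mul_one]
      rw [h3]
      have h4 : 2 ^ c * n ≤ 2 ^ (c * (x.length + 1)) * n := by
        refine Nat.mul_le_mul_right _ (Nat.pow_le_pow_right (by norm_num) ?_)
        nlinarith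
      set Y := 2 ^ (c * (x.length + 1)) * n
      have h5 : (x.length + 1) * (10 * Y + 2 * c + 3) =
        x.length * (10 * Y + 2 * c + 3) + (10 * Y + 2 * c + 3) := by ring
      rw [h5]
      omega

theorem run_move : ∀ (n : ℕ) (a : List Bool),
    Runs (Cmd.loop 1 (Cmd.seq (Cmd.pop 1) (Cmd.push 0 true)))
      (S3 a n 0) (S3 (List.replicate n true ++ a) 0 0) (3 * n + 1) := by
  intro n
  induction n with
  | zero => intro a; exact (Runs.loopNil (S3_1 a 0 0)).mono (by omega)
  | succ n ih =>
    intro a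
    have e1 := Runs.pop (S3 a (n + 1) 0) 1
    rw [S3_pop1] at e1
    have e2 := Runs.push (S3 a n 0) 0 true
    rw [S3_push0] at e2
    have h2 := ih (true :: a)
    refine (Runs.loopCons (by rw [S3_1]; simp) (e1.seq e2) h2).conv rfl ?_ (by omega)
    congr 1
    rw [List.replicate_succ']
    simp

/-- The blow-up program: on input `x` it produces `2^(c (|x| + 1))` marks. -/
def expand (c : ℕ) : Cmd ℕ := Cmd.seq (Cmd.push 1 true) (Cmd.seq (rep c)
  (Cmd.seq (Cmd.loop 0 (Cmd.seq (Cmd.pop 0) (rep c)))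
    (Cmd.loop 1 (Cmd.seq (Cmd.pop 1) (Cmd.push 0 true)))))

theorem run_expand (c : ℕ) (x : List Bool) :
    Runs (expand c) (inp x) (inp (List.replicate (2 ^ (c * (x.length + 1))) true))
      ((x.length + 1) * (13 * 2 ^ (c * (x.length + 1)) + 2 * c + 3) + 3) := by
  have e0 := Runs.push (S3 x 0 0) 1 true
  rw [S3_push1, zero_add] at e0
  have e1 := run_rep c 1 x
  rw [mul_one] at e1
  have e2 := run_main c x (2 ^ c)
  have h3 : 2 ^ (c * x.length) * 2 ^ c = 2 ^ (c * (x.length + 1)) := by
    rw [← pow_add, Nat.mul_add, mul_one]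
  rw [h3] at e2
  have e3 := run_move (2 ^ (c * (x.length + 1))) []
  rw [← S3_inp, ← S3_inp]
  refine (e0.seq (e1.seq (e2.seq e3))).conv rfl (by rw [List.append_nil]) ?_
  have h4 : 2 ^ c ≤ 2 ^ (c * (x.length + 1)) :=
    Nat.pow_le_pow_right (by norm_num) (by nlinarith)
  set Y := 2 ^ (c * (x.length + 1))
  have h5 : (x.length + 1) * (13 * Y + 2 * c + 3) =
    x.length * (10 * Y + 2 * c + 3) + 3 * (x.length * Y) + (13 * Y + 2 * c + 3) := by ring
  rw [h5]
  omega

theorem poly_exp_bound (c : ℕ) (p : Polynomial ℕ) :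
    ∃ C : ℕ, ∀ n : ℕ, p.eval (2 ^ (c * (n + 1))) ≤ 2 ^ (C * (n + 1)) := by
  induction p using Polynomial.induction_on' with
  | add p q hp hq =>
    obtain ⟨C1, h1⟩ := hp
    obtain ⟨C2, h2⟩ := hq
    refine ⟨C1 + C2 + 1, fun n => ?_⟩
    rw [Polynomial.eval_add]
    have h3 : 2 ^ (C1 * (n + 1)) ≤ 2 ^ ((C1 + C2) * (n + 1)) :=
      Nat.pow_le_pow_right (by norm_num) (Nat.mul_le_mul_right _ (by omega))
    have h4 : 2 ^ (C2 * (n + 1)) ≤ 2 ^ ((C1 + C2) * (n + 1)) :=
      Nat.pow_le_pow_right (by norm_num) (Nat.mul_le_mul_right _ (by omega))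
    have h5 : 2 ^ ((C1 + C2 + 1) * (n + 1)) = 2 ^ ((C1 + C2) * (n + 1)) * 2 ^ (n + 1) := by
      rw [← pow_add]; congr 1; ring
    have h6 : 2 ≤ 2 ^ (n + 1) := by
      rw [pow_succ]
      have := Nat.one_le_two_pow (n := n)
      omega
    calc _ ≤ 2 ^ (C1 * (n + 1)) + 2 ^ (C2 * (n + 1)) := Nat.add_le_add (h1 n) (h2 n)
      _ ≤ 2 ^ ((C1 + C2) * (n + 1)) * 2 := by omega
      _ ≤ _ := by rw [h5]; exact Nat.mul_le_mul_left _ h6
  | monomial k a =>
    refine ⟨a + c * k, fun n => ?_⟩
    rw [Polynomial.eval_monomial]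
    calc a * (2 ^ (c * (n + 1))) ^ k ≤ 2 ^ a * (2 ^ (c * (n + 1))) ^ k :=
          Nat.mul_le_mul_right _ (Nat.lt_two_pow_self).le
      _ = 2 ^ (a + c * (n + 1) * k) := by rw [← pow_mul, ← pow_add]
      _ ≤ _ := Nat.pow_le_pow_right (by norm_num) (by nlinarith)

/-- A program together with a time bound gives a machine. -/
theorem machine_of_runs {α β : Type} {ea : α → List Bool} {eb : β → List Bool} {f : α → β}
    (c : Cmd ℕ) (τ : ℕ → ℕ) (h : ∀ a, Runs c (inp (ea a)) (inp (eb (f a))) (τ (ea a).length)) :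
    ∃ M : TM2ComputableInTime ea eb f, ∀ n, M.time n = τ n + 1 := by
  have key : ∀ a : α, ∃ t, t ≤ τ (ea a).length + 1 ∧
      Nonempty (TM2OutputsInTime (c.map (Fin.ofNat (c.bd + 1))).toTM (ea a) (some (eb (f a))) t) := by
    intro a
    obtain ⟨t, ht, hr⟩ := h a
    have h1 := hr.restrict (n := c.bd) (by omega)
    refine ⟨t + 1, by simpa using ht, toTM_outputs ?_⟩
    convert! h1 using 1
    · funext i
      by_cases hi : i = 0
      · subst hi; simp [inp]
      · have : (i : ℕ) ≠ 0 := fun h => hi (Fin.ext h)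
        simp [inp, hi, this]
    · funext i
      by_cases hi : i = 0
      · subst hi; simp [inp]
      · have : (i : ℕ) ≠ 0 := fun h => hi (Fin.ext h)
        simp [inp, hi, this]
  refine ⟨{ tm := (c.map (Fin.ofNat (c.bd + 1))).toTM
            inputAlphabet := Equiv.refl Bool
            outputAlphabet := Equiv.refl Bool
            time := fun n => τ n + 1
            outputsFun := ?_ }, fun n => rfl⟩
  intro a
  have ha := key a
  have ht := ha.choose_spec.1
  have hm := ha.choose_spec.2.some
  exact outputs_conv (List.map_id (ea a)).symm (List.map_id (eb (f a))).symm ht hm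

end Pool.Agent.Helper785.BG
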