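import Pool.Agent.NPC.Num

/-!
# From the code of a list of bits back to the raw bit string
-/

set_option autoImplicit false

namespace Pool.Agent.Helper785.BG

open Pool.Agent.NPC

/-- The decoding loop. -/
def decLoop : Cmd ℕ := Cmd.loop 0 (Cmd.cases 0 Cmd.skip (Cmd.pop 0)
  (Cmd.seq (Cmd.pop 0) (Cmd.cases 0 Cmd.skip (Cmd.seq (Cmd.pop 0) (Cmd.push 1 false))
    (Cmd.seq (Cmd.pop 0) (Cmd.seq (Cmd.pop 0) (Cmd.seq (Cmd.pop 0) (Cmd.push 1 true)))))))

theorem decLoop_runs : ∀ (x y : List Bool),
    Runs decLoop (st (bits x) y []) (st [] (x.reverse ++ y) []) (10 * x.length + 5) := by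
  intro x
  induction x with
  | nil =>
    intro y
    have h1 : Runs (Cmd.cases 0 Cmd.skip (Cmd.pop 0)
      (Cmd.seq (Cmd.pop 0) (Cmd.cases 0 Cmd.skip (Cmd.seq (Cmd.pop 0) (Cmd.push 1 false))
      (Cmd.seq (Cmd.pop 0) (Cmd.seq (Cmd.pop 0) (Cmd.seq (Cmd.pop 0) (Cmd.push 1 true)))))))
      (st (bits ([] : List Bool)) y []) (st [] y []) 2 := by
      refine (Runs.casesFalse (l := []) rfl (Runs.pop _ 0)).conv rfl ?_ le_rfl
      simp [bits, T.enc]
    refine (Runs.loopCons (by simp [bits, T.enc]) h1 (Runs.loopNil (by simp))).conv rfl ?_
      (by simp)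
    simp
  | cons b x ih =>
    intro y
    have e1 := ih (b :: y)
    have h1 : Runs (Cmd.cases 0 Cmd.skip (Cmd.pop 0)
      (Cmd.seq (Cmd.pop 0) (Cmd.cases 0 Cmd.skip (Cmd.seq (Cmd.pop 0) (Cmd.push 1 false))
      (Cmd.seq (Cmd.pop 0) (Cmd.seq (Cmd.pop 0) (Cmd.seq (Cmd.pop 0) (Cmd.push 1 true)))))))
      (st (bits (b :: x)) y []) (st (bits x) (b :: y) []) 8 := by
      cases b
      · have e0 : bits (false :: x) = true :: false :: bits x := rfl
        rw [e0]
        have p1 := Runs.pop (st (true :: false :: bits x) y []) 0
        simp only [st_zero, List.tail_cons, update_st_zero] at p1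
        have p2 := Runs.pop (st (false :: bits x) y []) 0
        simp only [st_zero, List.tail_cons, update_st_zero] at p2
        have p3 := Runs.push (st (bits x) y []) 1 false
        simp only [st_one, update_st_one] at p3
        refine (Runs.casesTrue (l := false :: bits x) rfl (p1.seq
          (Runs.casesFalse (l := bits x) rfl (p2.seq p3)))).mono ?_
        omega
      · have e0 : bits (true :: x) = true :: true :: false :: false :: bits x := rfl
        rw [e0]
        have p1 := Runs.pop (st (true :: true :: false :: false :: bits x) y []) 0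
        simp only [st_zero, List.tail_cons, update_st_zero] at p1
        have p2 := Runs.pop (st (true :: false :: false :: bits x) y []) 0
        simp only [st_zero, List.tail_cons, update_st_zero] at p2
        have p3 := Runs.pop (st (false :: false :: bits x) y []) 0
        simp only [st_zero, List.tail_cons, update_st_zero] at p3
        have p4 := Runs.pop (st (false :: bits x) y []) 0
        simp only [st_zero, List.tail_cons, update_st_zero] at p4
        have p5 := Runs.push (st (bits x) y []) 1 true
        simp only [st_one, update_st_one] at p5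
        refine (Runs.casesTrue (l := true :: false :: false :: bits x) rfl (p1.seq
          (Runs.casesTrue (l := false :: false :: bits x) rfl
            (p2.seq (p3.seq (p4.seq p5)))))).mono ?_
        omega
    refine (Runs.loopCons ?_ h1 e1).conv rfl ?_ ?_
    · cases b <;> simp [bits, T.enc]
    · simp
    · simp only [List.length_cons]
      omega

/-- From the code of a list of bits to the raw bit string. -/
theorem toBits : PC (bits : List Bool → List Bool) (id : List Bool → List Bool) (fun x => x) := by
  refine ⟨Cmd.seq decLoop (mv 1 0), Polynomial.C 14 * Polynomial.X + Polynomial.C 6, fun x => ?_⟩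
  rw [inp_eq_st, inp_eq_st]
  have h1 := decLoop_runs x []
  have h2 := mv_runs (i := 1) (j := 0) (by decide) x.reverse (st [] x.reverse []) (st x [] [])
    (by simp) (by simp)
  rw [List.append_nil] at h1
  refine (h1.seq h2).mono ?_
  have h3 : x.length ≤ (bits x).length := by
    rw [bits_length]
    have := sz_listBool_ge x
    omega
  simp only [List.length_reverse, Polynomial.eval_add, Polynomial.eval_mul, Polynomial.eval_C,
    Polynomial.eval_X]
  omega

/-- Raw bit strings to raw bit strings. -/
theorem raw_of_poly {f : List Bool → List Bool} (hf : Poly f) :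
    PC (id : List Bool → List Bool) (id : List Bool → List Bool) f := by
  have h1 : PC (id : List Bool → List Bool) (bits : List Bool → List Bool) (fun x => x) := by
    have h0 := PC.ofBits
    exact h0
  have h2 : PC (id : List Bool → List Bool) (bits : List Bool → List Bool) f := PC.comp hf h1
  have h3 := PC.comp (f := f) toBits h2
  exact h3

end Pool.Agent.Helper785.BG
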