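import Pool.Agent.Helper785_BG.Bound
import Pool.Agent.Helper785_BG.Expand
import Pool.Agent.Helper785_BG.ToBits

/-!
# Exponential-time approximation of the entropy
-/

set_option autoImplicit false

namespace Pool.Agent.Helper785.BG

open Pool.Agent.NPC Pool.Agent.Helper785.SIEnt Turing

/-- The real number `h` can be approximated in exponential time: there are a function
`r : ℕ → ℕ × ℕ`, a constant `C` and a Turing machine (Mathlib's `TM2ComputableInTime`) computing
`r` from the input `n` written in unary, with output `(p, q)` written as `p` ones, a zero and `q`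
ones, which needs at most `2 ^ (C * (n + 1))` steps on input `n`, such that for every `n ≥ 1` the
rational number `p / q` given by `r n = (p, q)` differs from `h` by less than `1 / n`. -/
def ExpTimeApprox (h : ℝ) : Prop :=
  ∃ (r : ℕ → ℕ × ℕ) (C : ℕ)
    (T : TM2ComputableInTime (fun n : ℕ => List.replicate n true)
      (fun p : ℕ × ℕ => List.replicate p.1 true ++ false :: List.replicate p.2 true) r),
    (∀ n, T.time n ≤ 2 ^ (C * (n + 1))) ∧
    ∀ n : ℕ, 1 ≤ n → 0 < (r n).2 ∧ |h - ((r n).1 : ℝ) / ((r n).2 : ℝ)| < 1 / n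

/-- Unary code of a pair. -/
def ucode (p : ℕ × ℕ) : List Bool := List.replicate p.1 true ++ false :: List.replicate p.2 true

theorem upoly_out1 (k w : ℕ) (G : List (List ℕ)) : UPoly (fun l => (out k w G l).1) := by
  have h1 : Poly (fun l => ((vstep k w G l)^[cm k w l] (vinit k w G l)).sum) :=
    NPC.Poly.sum (poly_vec k w G)
  have h2 : UPoly (fun l => (((vstep k w G l)^[cm k w l] (vinit k w G l)).sum).bits.length) :=
    UPoly.length (NPC.Poly.natBits h1)
  have h3 : UPoly (fun l : List Bool => (((vstep k w G l)^[cm k w l] (vinit k w G l)).sum).bits.length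
      * (cT l * (cT l * cT l))) := UPoly.mul h2 (UPoly.mul upoly_T (UPoly.mul upoly_T upoly_T))
  refine UPoly.of_le (NPC.Poly.fst (poly_out k w G)) h3 (fun l => ?_)
  have h4 : (((vstep k w G l)^[cm k w l] (vinit k w G l)).sum).bits.length =
      (total (k ^ (w * cT l)) (good k w (cT l) G) (stp k w (cT l)) (cm k w l)).size := by
    unfold total
    rw [vstep_iterate, sum_map_range, Nat.size_eq_bits_len]
  rw [h4]
  unfold out
  refine Nat.mul_le_mul_left _ ?_
  unfold lnum
  calc ∑ j ∈ Finset.range (cT l), cT l * cT l / (cT l + j + 1)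
      ≤ ∑ j ∈ Finset.range (cT l), cT l * cT l :=
        Finset.sum_le_sum (fun j _ => Nat.div_le_self _ _)
    _ = cT l * (cT l * cT l) := by rw [Finset.sum_const, Finset.card_range, smul_eq_mul]

theorem upoly_out2 (k w : ℕ) (G : List (List ℕ)) : UPoly (fun l => (out k w G l).2) :=
  UPoly.mul (UPoly.mul upoly_T (UPoly.mul (upoly_K k w) upoly_T)) (UPoly.mul upoly_T upoly_T)

theorem poly_replicate {α : Type} [TEnc α] {n : α → ℕ} (hn : UPoly n) :
    Poly (fun a => List.replicate (n a) true) := by
  have h : Poly (fun a => (List.replicate (n a) ()).map (fun _ => true)) :=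
    NPC.Poly.map (F := fun (_ : α) (_ : Unit) => true) hn (NPC.Poly.const true)
  exact h.congr (fun a => by rw [List.map_replicate])

theorem poly_ucode (k w : ℕ) (G : List (List ℕ)) : Poly (fun l => ucode (out k w G l)) := by
  unfold ucode
  exact NPC.Poly.append (poly_replicate (upoly_out1 k w G))
    (NPC.Poly.cons (NPC.Poly.const false) (poly_replicate (upoly_out2 k w G)))

theorem expTimeApprox_of {k w : ℕ} {G : List (List ℕ)} {h C : ℝ} {M' : ℕ}
    (hb : ∀ l : List Bool, M' ≤ cT l → 0 < (out k w G l).2 ∧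
      |h - ((out k w G l).1 : ℝ) / ((out k w G l).2 : ℝ)| ≤ C / (cT l : ℝ)) : ExpTimeApprox h := by
  obtain ⟨N, hN⟩ := exists_nat_ge C
  set c0 : ℕ := M' + N + 1 with hc0
  obtain ⟨c, p, hc⟩ := raw_of_poly (poly_ucode k w G)
  set inpt : ℕ → List Bool := fun n => List.replicate (2 ^ (c0 * (n + 1))) true with hinpt
  set r : ℕ → ℕ × ℕ := fun n => out k w G (inpt n) with hr
  have hruns : ∀ n : ℕ, Runs (Cmd.seq (expand c0) c) (inp (List.replicate n true))
      (inp (ucode (r n)))
      (((List.replicate n true : List Bool).length + 1) *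
        (13 * 2 ^ (c0 * ((List.replicate n true : List Bool).length + 1)) + 2 * c0 + 3) + 3 +
        p.eval (2 ^ (c0 * ((List.replicate n true : List Bool).length + 1)))) := by
    intro n
    have h1 := run_expand c0 (List.replicate n true)
    have h2 := hc (inpt n)
    have h3 : (List.replicate n true : List Bool).length = n := List.length_replicate
    rw [h3] at h1 ⊢
    refine (h1.seq h2).mono ?_
    have h4 : (id (inpt n) : List Bool).length = 2 ^ (c0 * (n + 1)) := by
      simp [hinpt]
    rw [h4]
  obtain ⟨T, hT⟩ := machine_of_runs (ea := fun n : ℕ => List.replicate n true) (eb := ucode)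
    (f := r) (Cmd.seq (expand c0) c)
    (fun n => (n + 1) * (13 * 2 ^ (c0 * (n + 1)) + 2 * c0 + 3) + 3 + p.eval (2 ^ (c0 * (n + 1))))
    hruns
  obtain ⟨C', hC'⟩ := poly_exp_bound c0 (Polynomial.X * (Polynomial.C 13 * Polynomial.X +
    Polynomial.C (2 * c0 + 3)) + Polynomial.C 4 + p)
  refine ⟨r, C', T, ?_, ?_⟩
  · intro n
    rw [hT]
    refine le_trans ?_ (hC' n)
    simp only [Polynomial.eval_add, Polynomial.eval_mul, Polynomial.eval_X, Polynomial.eval_C]
    have h1 : n + 1 ≤ 2 ^ (c0 * (n + 1)) := by
      have h2 : n + 1 ≤ c0 * (n + 1) := Nat.le_mul_of_pos_left _ (by omega)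
      exact h2.trans (Nat.lt_two_pow_self).le
    have h3 := Nat.mul_le_mul_right (13 * 2 ^ (c0 * (n + 1)) + 2 * c0 + 3) h1
    rw [add_assoc] at h3
    rw [add_assoc (13 * 2 ^ (c0 * (n + 1)))]
    omega
  · intro n hn
    have hcT : cT (inpt n) = c0 * (n + 1) + 1 := by
      unfold cT
      simp only [hinpt, List.length_replicate]
      rw [Nat.size_pow]
    have h1 : M' ≤ cT (inpt n) := by
      rw [hcT, hc0]
      nlinarith
    obtain ⟨h2, h3⟩ := hb (inpt n) h1
    refine ⟨h2, lt_of_le_of_lt h3 ?_⟩
    have hn' : (0 : ℝ) < n := by exact_mod_cast hn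
    rw [hcT, div_lt_div_iff₀ (by positivity) hn']
    have h4 : (N : ℝ) * n ≤ c0 * (n + 1) := by
      have : N * n ≤ c0 * (n + 1) := Nat.mul_le_mul (by omega) (by omega)
      exact_mod_cast this
    have h5 : C * n ≤ N * n := mul_le_mul_of_nonneg_right hN hn'.le
    push_cast
    linarith

/-- **Block gluing.** The entropy of a nonempty block gluing `ℤ²`-shift of finite type can be
approximated in exponential time. -/
theorem expTimeApprox_of_blockGluing {A : Type} [Finite A] (L : List (Pattern 2 A)) {h : ℝ}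
    (hne : (sft L).Nonempty) (hbg : BlockGluing (sft L)) (hent : HasEntropy (sft L) h) :
    ExpTimeApprox h := by
  obtain ⟨k, ⟨e⟩⟩ := Finite.exists_equiv_fin A
  obtain ⟨M, hM, hX⟩ := exists_glue hbg
  obtain ⟨w, G, hw, hG⟩ := exists_window e L
  obtain ⟨C, _, hC⟩ := out_bound e hent hne hM hX hw hG
  exact expTimeApprox_of hC

end Pool.Agent.Helper785.BG
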