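import Pool.Agent.Helper785_SIEnt.Defs

/-!
# Block gluing and the numbers of rectangular patterns
-/

set_option autoImplicit false

namespace Pool.Agent.Helper785.BG

open Pool.Agent.Helper785.SIEnt Filter

/-- A finite box in `ℤ^d`. -/
def box {d : ℕ} (a b : Fin d → ℤ) : Set (Fin d → ℤ) := {v | ∀ i, a i ≤ v i ∧ v i < b i}

/-- Block gluing: for some `M ≥ 1`, whenever two finite boxes have distance at least `M` in the
maximum norm and `x, y ∈ X`, some `z ∈ X` agrees with `x` on the first box and with `y` on the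
second one. -/
def BlockGluing {d : ℕ} {A : Type} (X : Set ((Fin d → ℤ) → A)) : Prop :=
  ∃ M : ℕ, 1 ≤ M ∧ ∀ a b a' b' : Fin d → ℤ,
    (∀ u ∈ box a b, ∀ v ∈ box a' b', ∃ i : Fin d, (M : ℤ) ≤ |u i - v i|) →
    ∀ x ∈ X, ∀ y ∈ X, ∃ z ∈ X, (∀ u ∈ box a b, z u = x u) ∧ ∀ v ∈ box a' b', z v = y v

theorem StronglyIrreducible.blockGluing {d : ℕ} {A : Type} {X : Set ((Fin d → ℤ) → A)}
    (h : StronglyIrreducible X) : BlockGluing X := by
  obtain ⟨M, hM, h⟩ := h
  exact ⟨M, hM, fun a b a' b' hd => h _ _ hd⟩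

variable {A : Type}

/-- Gluing with a gap of `M` columns or `M` rows. -/
structure Glue (X : Set ((Fin 2 → ℤ) → A)) (M : ℕ) : Prop where
  shift : ∀ x ∈ X, ∀ s t : ℤ, (fun v : Fin 2 → ℤ => x ![v 0 + s, v 1 + t]) ∈ X
  hor : ∀ x ∈ X, ∀ y ∈ X, ∀ a b c e a' b' c' e' : ℤ, b + M ≤ a' → ∃ z ∈ X,
    (∀ i j, a ≤ i → i < b → c ≤ j → j < e → z ![i, j] = x ![i, j]) ∧
    (∀ i j, a' ≤ i → i < b' → c' ≤ j → j < e' → z ![i, j] = y ![i, j])
  ver : ∀ x ∈ X, ∀ y ∈ X, ∀ a b c e a' b' c' e' : ℤ, e + M ≤ c' → ∃ z ∈ X,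
    (∀ i j, a ≤ i → i < b → c ≤ j → j < e → z ![i, j] = x ![i, j]) ∧
    (∀ i j, a' ≤ i → i < b' → c' ≤ j → j < e' → z ![i, j] = y ![i, j])

theorem vec_eta (v : Fin 2 → ℤ) : ![v 0, v 1] = v := by
  funext i; fin_cases i <;> rfl

theorem exists_glue {L : List (Pattern 2 A)} (h : BlockGluing (sft L)) :
    ∃ M : ℕ, 1 ≤ M ∧ Glue (sft L) M := by
  obtain ⟨M, hM, h⟩ := h
  refine ⟨M, hM, ?_, ?_, ?_⟩
  · intro x hx s t P hP v hocc
    refine hx P hP (v + ![s, t]) ?_
    intro u hu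
    rw [← hocc u hu]
    congr 1
    funext i
    fin_cases i
    · simp only [Fin.zero_eta, Pi.add_apply, Matrix.cons_val_zero]
      ring
    · simp only [Fin.mk_one, Pi.add_apply, Matrix.cons_val_one, Matrix.cons_val_zero]
      ring
  · intro x hx y hy a b c e a' b' c' e' hab
    obtain ⟨z, hz, h1, h2⟩ := h ![a, c] ![b, e] ![a', c'] ![b', e'] (by
      intro u hu v hv
      refine ⟨0, ?_⟩
      have h1 := (hu 0).2
      have h2 := (hv 0).1
      simp at h1 h2
      rw [abs_sub_comm]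
      refine le_trans ?_ (le_abs_self _)
      omega) x hx y hy
    refine ⟨z, hz, ?_, ?_⟩
    · intro i j hi1 hi2 hj1 hj2
      refine h1 _ ?_
      intro k; fin_cases k <;> simp <;> omega
    · intro i j hi1 hi2 hj1 hj2
      refine h2 _ ?_
      intro k; fin_cases k <;> simp <;> omega
  · intro x hx y hy a b c e a' b' c' e' hab
    obtain ⟨z, hz, h1, h2⟩ := h ![a, c] ![b, e] ![a', c'] ![b', e'] (by
      intro u hu v hv
      refine ⟨1, ?_⟩
      have h1 := (hu 1).2
      have h2 := (hv 1).1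
      simp at h1 h2
      rw [abs_sub_comm]
      refine le_trans ?_ (le_abs_self _)
      omega) x hx y hy
    refine ⟨z, hz, ?_, ?_⟩
    · intro i j hi1 hi2 hj1 hj2
      refine h1 _ ?_
      intro k; fin_cases k <;> simp <;> omega
    · intro i j hi1 hi2 hj1 hj2
      refine h2 _ ?_
      intro k; fin_cases k <;> simp <;> omega

/-- The pattern of `x` on `{0, …, a-1} × {0, …, b-1}`. -/
def pat (a b : ℕ) (x : (Fin 2 → ℤ) → A) : Fin a → Fin b → A :=
  fun i j => x ![((i : ℕ) : ℤ), ((j : ℕ) : ℤ)]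

/-- The number of patterns on `{0, …, a-1} × {0, …, b-1}`. -/
noncomputable def rc (X : Set ((Fin 2 → ℤ) → A)) (a b : ℕ) : ℕ := Set.ncard (pat a b '' X)

theorem patternCount_eq (X : Set ((Fin 2 → ℤ) → A)) (k : ℕ) : patternCount X k = rc X k k := by
  unfold patternCount rc
  let f : (cube 2 k → A) → (Fin k → Fin k → A) := fun u i j =>
    u ⟨![((i : ℕ) : ℤ), ((j : ℕ) : ℤ)], by
      intro t; fin_cases t <;> simp⟩
  have hf : Function.Injective f := by
    intro u u' h
    funext v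
    have h0 := v.2 0
    have h1 := v.2 1
    have := congrFun (congrFun h ⟨(v.1 0).toNat, by omega⟩) ⟨(v.1 1).toNat, by omega⟩
    have hm : (![((v.1 0).toNat : ℤ), ((v.1 1).toNat : ℤ)] : Fin 2 → ℤ) ∈ cube 2 k := by
      intro t
      fin_cases t
      · simp only [Fin.zero_eta, Matrix.cons_val_zero]; omega
      · simp only [Fin.mk_one, Matrix.cons_val_one, Matrix.cons_val_zero]; omega
    have hv : (⟨![((v.1 0).toNat : ℤ), ((v.1 1).toNat : ℤ)], hm⟩ : cube 2 k) = v := by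
      apply Subtype.ext
      have e0 : ((v.1 0).toNat : ℤ) = v.1 0 := Int.toNat_of_nonneg h0.1
      have e1 : ((v.1 1).toNat : ℤ) = v.1 1 := Int.toNat_of_nonneg h1.1
      simp only [e0, e1]
      exact vec_eta v.1
    have h2 : u ⟨![((v.1 0).toNat : ℤ), ((v.1 1).toNat : ℤ)], hm⟩ =
        u' ⟨![((v.1 0).toNat : ℤ), ((v.1 1).toNat : ℤ)], hm⟩ := this
    rw [hv] at h2
    exact h2
  rw [← Set.ncard_image_of_injective _ hf, Set.image_image]
  rfl

variable [Finite A]

theorem rc_pos {X : Set ((Fin 2 → ℤ) → A)} (hne : X.Nonempty) (a b : ℕ) : 0 < rc X a b := by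
  unfold rc
  rw [Set.ncard_pos (Set.toFinite _)]
  exact hne.image _

theorem rc_mul_le {X : Set ((Fin 2 → ℤ) → A)}
    (hs : ∀ x ∈ X, ∀ s t : ℤ, (fun v : Fin 2 → ℤ => x ![v 0 + s, v 1 + t]) ∈ X)
    (a b p q : ℕ) : rc X (p * a) (q * b) ≤ rc X a b ^ (p * q) := by
  classical
  unfold rc
  rw [← Nat.card_coe_set_eq, ← Nat.card_coe_set_eq]
  have hfun : Nat.card (Fin p × Fin q → (pat a b '' X)) = Nat.card (pat a b '' X) ^ (p * q) := by
    rw [Nat.card_fun]
    simp
  rw [← hfun]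
  have hlt : ∀ {m n : ℕ} (i : Fin m) (j : Fin n), (i : ℕ) * n + j < m * n := by
    intro m n i j
    have h1 : (i : ℕ) + 1 ≤ m := i.2
    have h2 : ((i : ℕ) + 1) * n ≤ m * n := Nat.mul_le_mul_right _ h1
    have h3 := j.2
    nlinarith
  let g : (pat (p * a) (q * b) '' X) → (Fin p × Fin q → (pat a b '' X)) := fun u st =>
    ⟨fun i j => u.1 ⟨st.1 * a + i, hlt st.1 i⟩ ⟨st.2 * b + j, hlt st.2 j⟩, by
      obtain ⟨x, hx, hu⟩ := u.2
      refine ⟨_, hs x hx (st.1 * a : ℕ) (st.2 * b : ℕ), ?_⟩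
      rw [← hu]
      funext i j
      simp only [pat]
      congr 1
      funext t
      fin_cases t <;> simp <;> ring⟩
  refine Nat.card_le_card_of_injective g ?_
  intro u u' h
  apply Subtype.ext
  funext i j
  have ha : 0 < a := by
    rcases Nat.eq_zero_or_pos a with h | h
    · subst h; exact absurd i.2 (by simp)
    · exact h
  have hb : 0 < b := by
    rcases Nat.eq_zero_or_pos b with h | h
    · subst h; exact absurd j.2 (by simp)
    · exact h
  have hi : (i : ℕ) / a < p := (Nat.div_lt_iff_lt_mul ha).2 i.2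
  have hj : (j : ℕ) / b < q := (Nat.div_lt_iff_lt_mul hb).2 j.2
  have h1 := congrFun h (⟨(i : ℕ) / a, hi⟩, ⟨(j : ℕ) / b, hj⟩)
  have h2 := congrFun (congrFun (Subtype.ext_iff.1 h1) ⟨(i : ℕ) % a, Nat.mod_lt _ ha⟩)
    ⟨(j : ℕ) % b, Nat.mod_lt _ hb⟩
  simp only [g] at h2
  have e1 : (⟨(i : ℕ) / a * a + (i : ℕ) % a, by rw [Nat.div_add_mod']; exact i.2⟩ : Fin (p * a)) =
      i := Fin.ext (Nat.div_add_mod' _ _)
  have e2 : (⟨(j : ℕ) / b * b + (j : ℕ) % b, by rw [Nat.div_add_mod']; exact j.2⟩ : Fin (q * b)) =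
      j := Fin.ext (Nat.div_add_mod' _ _)
  rw [e1, e2] at h2
  exact h2

omit [Finite A] in
/-- Gluing a row of rectangles. -/
theorem glue_row {X : Set ((Fin 2 → ℤ) → A)} {M : ℕ} (hX : Glue X M) (a b : ℕ) :
    ∀ (p : ℕ) (x : ℕ → (Fin 2 → ℤ) → A), (∀ s, x s ∈ X) → ∃ z ∈ X, ∀ s < p, ∀ i j : ℕ, i < a →
      j < b → z ![((s * (a + M) + i : ℕ) : ℤ), (j : ℤ)] = x s ![(i : ℤ), (j : ℤ)] := by
  intro p
  induction p with
  | zero =>
    intro x hx
    exact ⟨x 0, hx 0, fun s hs => absurd hs (by omega)⟩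
  | succ p ih =>
    intro x hx
    obtain ⟨z, hz, h⟩ := ih x hx
    have hy := hX.shift (x p) (hx p) (-((p * (a + M) : ℕ) : ℤ)) 0
    rcases Nat.eq_zero_or_pos a with ha | ha
    · subst ha
      exact ⟨z, hz, fun s _ i j hi => absurd hi (by omega)⟩
    obtain ⟨z', hz', h1, h2⟩ := hX.hor z hz _ hy 0 ((p * (a + M) : ℕ) - M : ℤ) 0 b
      ((p * (a + M) : ℕ) : ℤ) ((p * (a + M) + a : ℕ) : ℤ) 0 b (by omega)
    refine ⟨z', hz', ?_⟩
    intro s hs i j hi hj
    rcases Nat.lt_succ_iff_lt_or_eq.1 hs with hlt | heq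
    · rw [h1 _ _ (by omega) ?_ (by omega) (by omega)]
      · exact h s hlt i j hi hj
      · have : (s + 1) * (a + M) ≤ p * (a + M) := Nat.mul_le_mul_right _ hlt
        have h3 : (s + 1) * (a + M) = s * (a + M) + a + M := by ring
        omega
    · subst heq
      rw [h2 _ _ (by omega) (by omega) (by omega) (by omega)]
      simp

omit [Finite A] in
/-- Gluing a grid of rectangles. -/
theorem glue_grid {X : Set ((Fin 2 → ℤ) → A)} {M : ℕ} (hX : Glue X M) (a b p : ℕ) :
    ∀ (q : ℕ) (x : ℕ → ℕ → (Fin 2 → ℤ) → A), (∀ s t, x s t ∈ X) → ∃ z ∈ X, ∀ s < p, ∀ t < q,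
      ∀ i j : ℕ, i < a → j < b → z ![((s * (a + M) + i : ℕ) : ℤ), ((t * (b + M) + j : ℕ) : ℤ)] =
        x s t ![(i : ℤ), (j : ℤ)] := by
  intro q
  induction q with
  | zero =>
    intro x hx
    exact ⟨x 0 0, hx 0 0, fun s hs t ht => absurd ht (by omega)⟩
  | succ q ih =>
    intro x hx
    obtain ⟨z, hz, h⟩ := ih x hx
    obtain ⟨y, hy, hyx⟩ := glue_row hX a b p (fun s => x s q) (fun s => hx s q)
    have hy' := hX.shift y hy 0 (-((q * (b + M) : ℕ) : ℤ))
    obtain ⟨z', hz', h1, h2⟩ := hX.ver z hz _ hy' 0 ((p * (a + M) : ℕ) : ℤ) 0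
      ((q * (b + M) : ℕ) - M : ℤ) 0 ((p * (a + M) : ℕ) : ℤ)
      ((q * (b + M) : ℕ) : ℤ) ((q * (b + M) + b : ℕ) : ℤ) (by omega)
    refine ⟨z', hz', ?_⟩
    intro s hs t ht i j hi hj
    have hs1 : (s + 1) * (a + M) ≤ p * (a + M) := Nat.mul_le_mul_right _ hs
    have hs2 : (s + 1) * (a + M) = s * (a + M) + a + M := by ring
    rcases Nat.lt_succ_iff_lt_or_eq.1 ht with hlt | heq
    · rw [h1 _ _ (by omega) (by omega) (by omega) ?_]
      · exact h s hs t hlt i j hi hj
      · have : (t + 1) * (b + M) ≤ q * (b + M) := Nat.mul_le_mul_right _ hlt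
        have h3 : (t + 1) * (b + M) = t * (b + M) + b + M := by ring
        omega
    · subst heq
      rw [h2 _ _ (by omega) (by omega) (by omega) (by omega)]
      simp only [Matrix.cons_val_zero, Matrix.cons_val_one, add_zero]
      have := hyx s hs i j hi hj
      rw [← this]
      congr 1
      push_cast
      funext k
      fin_cases k <;> simp

theorem pow_le_rc {X : Set ((Fin 2 → ℤ) → A)} {M : ℕ} (hX : Glue X M) (hne : X.Nonempty)
    (a b p q : ℕ) : rc X a b ^ (p * q) ≤ rc X (p * (a + M)) (q * (b + M)) := by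
  classical
  unfold rc
  rw [← Nat.card_coe_set_eq, ← Nat.card_coe_set_eq]
  have hfun : Nat.card (Fin p × Fin q → (pat a b '' X)) = Nat.card (pat a b '' X) ^ (p * q) := by
    rw [Nat.card_fun]
    simp
  rw [← hfun]
  obtain ⟨x0, hx0⟩ := hne
  have hex : ∀ g : Fin p × Fin q → (pat a b '' X), ∃ z ∈ X, ∀ (st : Fin p × Fin q) (i : Fin a)
      (j : Fin b), z ![((st.1 * (a + M) + i : ℕ) : ℤ), ((st.2 * (b + M) + j : ℕ) : ℤ)] =
        (g st).1 i j := by
    intro g
    have hg : ∀ st, ∃ x ∈ X, pat a b x = (g st).1 := fun st => (g st).2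
    choose x hx1 hx2 using hg
    let x' : ℕ → ℕ → (Fin 2 → ℤ) → A := fun s t =>
      if h : s < p ∧ t < q then x (⟨s, h.1⟩, ⟨t, h.2⟩) else x0
    obtain ⟨z, hz, h⟩ := glue_grid hX a b p q x' (by
      intro s t
      simp only [x']
      split_ifs
      · exact hx1 _
      · exact hx0)
    refine ⟨z, hz, ?_⟩
    intro st i j
    rw [h st.1 st.1.2 st.2 st.2.2 i j i.2 j.2, ← hx2 st]
    simp only [x', pat]
    rw [dif_pos ⟨st.1.2, st.2.2⟩]
  choose z hz1 hz2 using hex
  have hlt : ∀ {m n : ℕ} (i : Fin m) (j : Fin n), (i : ℕ) * (n + M) + j < m * (n + M) := by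
    intro m n i j
    have h1 : (i : ℕ) + 1 ≤ m := i.2
    have h2 : ((i : ℕ) + 1) * (n + M) ≤ m * (n + M) := Nat.mul_le_mul_right _ h1
    have h3 := j.2
    nlinarith
  refine Nat.card_le_card_of_injective
    (fun g => (⟨pat (p * (a + M)) (q * (b + M)) (z g), z g, hz1 g, rfl⟩ :
      (pat (p * (a + M)) (q * (b + M)) '' X))) ?_
  intro g g' h
  funext st
  apply Subtype.ext
  funext i j
  have h1 := congrFun (congrFun (Subtype.ext_iff.1 h) ⟨st.1 * (a + M) + i, hlt st.1 i⟩)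
    ⟨st.2 * (b + M) + j, hlt st.2 j⟩
  simp only [pat] at h1
  rw [← hz2 g st i j, ← hz2 g' st i j]
  exact h1

theorem entropy_mul_le {X : Set ((Fin 2 → ℤ) → A)} {h : ℝ} (hent : HasEntropy X h)
    (hne : X.Nonempty)
    (hs : ∀ x ∈ X, ∀ s t : ℤ, (fun v : Fin 2 → ℤ => x ![v 0 + s, v 1 + t]) ∈ X)
    (a b : ℕ) : h * (a * b) ≤ Real.log (rc X a b) := by
  rcases Nat.eq_zero_or_pos a with ha | ha
  · subst ha
    simp only [Nat.cast_zero, zero_mul, mul_zero]
    exact Real.log_nonneg (by exact_mod_cast rc_pos hne 0 b)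
  rcases Nat.eq_zero_or_pos b with hb | hb
  · subst hb
    simp only [Nat.cast_zero, mul_zero]
    exact Real.log_nonneg (by exact_mod_cast rc_pos hne a 0)
  have ha' : (0 : ℝ) < a := by exact_mod_cast ha
  have hb' : (0 : ℝ) < b := by exact_mod_cast hb
  have hsub : Tendsto (fun n : ℕ => n * (a * b)) atTop atTop :=
    tendsto_id.atTop_mul_const' (by positivity)
  have hlim := hent.comp hsub
  rw [← le_div_iff₀ (by positivity)]
  refine le_of_tendsto hlim ?_
  filter_upwards [eventually_gt_atTop 0] with n hn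
  have hn' : (0 : ℝ) < n := by exact_mod_cast hn
  simp only [Function.comp]
  rw [patternCount_eq]
  have h1 : rc X (n * (a * b)) (n * (a * b)) ≤ rc X a b ^ ((n * b) * (n * a)) := by
    have := rc_mul_le hs a b (n * b) (n * a)
    rwa [show n * b * a = n * (a * b) by ring, show n * a * b = n * (a * b) by ring] at this
  have h2 : Real.log (rc X (n * (a * b)) (n * (a * b))) ≤
      ((n * b) * (n * a) : ℝ) * Real.log (rc X a b) := by
    have h3 : Real.log (rc X (n * (a * b)) (n * (a * b))) ≤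
        Real.log ((rc X a b ^ ((n * b) * (n * a)) : ℕ) : ℝ) :=
      Real.log_le_log (by exact_mod_cast rc_pos hne _ _) (by exact_mod_cast h1)
    refine h3.trans (le_of_eq ?_)
    rw [Nat.cast_pow, Real.log_pow]
    push_cast
    ring
  rw [div_le_div_iff₀ (by positivity) (by positivity)]
  calc Real.log (rc X (n * (a * b)) (n * (a * b))) * (a * b)
      ≤ ((n * b) * (n * a) : ℝ) * Real.log (rc X a b) * (a * b) :=
        mul_le_mul_of_nonneg_right h2 (by positivity)
    _ = Real.log (rc X a b) * ((n * (a * b) : ℕ) : ℝ) ^ 2 := by push_cast; ring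

theorem log_rc_le {X : Set ((Fin 2 → ℤ) → A)} {h : ℝ} (hent : HasEntropy X h)
    (hne : X.Nonempty) {M : ℕ} (hM : 1 ≤ M) (hX : Glue X M)
    (a b : ℕ) : Real.log (rc X a b) ≤ h * ((a + M) * (b + M)) := by
  have ha' : (0 : ℝ) < a + M := by positivity
  have hb' : (0 : ℝ) < b + M := by positivity
  have hsub : Tendsto (fun n : ℕ => n * ((a + M) * (b + M))) atTop atTop :=
    tendsto_id.atTop_mul_const' (by positivity)
  have hlim := hent.comp hsub
  rw [← div_le_iff₀ (by positivity)]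
  refine ge_of_tendsto hlim ?_
  filter_upwards [eventually_gt_atTop 0] with n hn
  have hn' : (0 : ℝ) < n := by exact_mod_cast hn
  simp only [Function.comp]
  rw [patternCount_eq]
  have h1 : rc X a b ^ ((n * (b + M)) * (n * (a + M))) ≤
      rc X (n * ((a + M) * (b + M))) (n * ((a + M) * (b + M))) := by
    have := pow_le_rc hX hne a b (n * (b + M)) (n * (a + M))
    rwa [show n * (b + M) * (a + M) = n * ((a + M) * (b + M)) by ring,
      show n * (a + M) * (b + M) = n * ((a + M) * (b + M)) by ring] at this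
  have h2 : ((n * (b + M)) * (n * (a + M)) : ℝ) * Real.log (rc X a b) ≤
      Real.log (rc X (n * ((a + M) * (b + M))) (n * ((a + M) * (b + M)))) := by
    have h3 : Real.log ((rc X a b ^ ((n * (b + M)) * (n * (a + M))) : ℕ) : ℝ) ≤
        Real.log (rc X (n * ((a + M) * (b + M))) (n * ((a + M) * (b + M)))) :=
      Real.log_le_log (by exact_mod_cast pow_pos (rc_pos hne _ _) _) (by exact_mod_cast h1)
    refine le_trans (le_of_eq ?_) h3
    rw [Nat.cast_pow, Real.log_pow]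
    push_cast
    ring
  rw [div_le_div_iff₀ (by positivity) (by positivity)]
  calc Real.log (rc X a b) * ((n * ((a + M) * (b + M)) : ℕ) : ℝ) ^ 2
      = ((n * (b + M)) * (n * (a + M)) : ℝ) * Real.log (rc X a b) * ((a + M) * (b + M)) := by
        push_cast; ring
    _ ≤ _ := mul_le_mul_of_nonneg_right h2 (by positivity)

end Pool.Agent.Helper785.BG
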