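import Pool.Agent.Helper785_BG.Rect

/-!
# The window form of a shift of finite type on `ℤ²`
-/

set_option autoImplicit false

namespace Pool.Agent.Helper785.BG

open Pool.Agent.Helper785.SIEnt

/-- The list of the values of `g` on the window `{0, …, w-1}²`. -/
def wl (w : ℕ) (g : ℕ → ℕ → ℕ) : List ℕ := (List.range (w * w)).map (fun n => g (n % w) (n / w))

theorem wl_congr {w : ℕ} {g g' : ℕ → ℕ → ℕ} (h : ∀ a < w, ∀ b < w, g a b = g' a b) :
    wl w g = wl w g' := by
  unfold wl
  refine List.map_congr_left (fun n hn => ?_)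
  rw [List.mem_range] at hn
  have hw : 0 < w := by
    rcases Nat.eq_zero_or_pos w with h0 | h0
    · subst h0; simp at hn
    · exact h0
  exact h _ (Nat.mod_lt _ hw) _ ((Nat.div_lt_iff_lt_mul hw).2 hn)

theorem wl_inj {w : ℕ} {g g' : ℕ → ℕ → ℕ} (h : wl w g = wl w g') :
    ∀ a < w, ∀ b < w, g a b = g' a b := by
  intro a ha b hb
  have hw : 0 < w := by omega
  have h1 : w * b + a < w * w := by
    have : w * (b + 1) ≤ w * w := Nat.mul_le_mul_left _ hb
    rw [Nat.mul_add] at this
    omega
  unfold wl at h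
  have h2 := congrArg (fun l => l[w * b + a]?) h
  simp only [List.getElem?_map, List.getElem?_range h1, Option.map_some, Option.some.injEq] at h2
  rwa [Nat.mul_add_mod, Nat.mod_eq_of_lt ha, Nat.mul_add_div hw, Nat.div_eq_of_lt ha,
    add_zero] at h2

variable {A : Type}

/-- Every shift of finite type on `ℤ²` is given by a finite list of allowed windows. -/
theorem exists_window {k : ℕ} (e : A ≃ Fin k) (L : List (Pattern 2 A)) :
    ∃ (w : ℕ) (G : List (List ℕ)), 1 ≤ w ∧ ∀ y : (Fin 2 → ℤ) → A, y ∈ sft L ↔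
      ∀ i j : ℤ, wl w (fun a b => (e (y ![i + a, j + b]) : ℕ)) ∈ G := by
  classical
  obtain ⟨r, hr⟩ : ∃ r : ℕ, ∀ P ∈ L, ∀ s ∈ P.supp, ∀ i, |s i| ≤ (r : ℤ) := by
    induction L with
    | nil => exact ⟨0, fun P hP => absurd hP (by simp)⟩
    | cons P L ih =>
      obtain ⟨r, hr⟩ := ih
      refine ⟨max r (P.supp.sup (fun s => (|s 0|).toNat + (|s 1|).toNat)), ?_⟩
      intro Q hQ s hs i
      rcases List.mem_cons.1 hQ with h | h
      · subst h
        have h1 : (|s 0|).toNat + (|s 1|).toNat ≤
            Q.supp.sup (fun s => (|s 0|).toNat + (|s 1|).toNat) :=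
          Finset.le_sup (f := fun s : Fin 2 → ℤ => (|s 0|).toNat + (|s 1|).toNat) hs
        have h2 : |s i| ≤ ((|s 0|).toNat + (|s 1|).toNat : ℕ) := by
          have h3 := Int.toNat_of_nonneg (abs_nonneg (s 0))
          have h4 := Int.toNat_of_nonneg (abs_nonneg (s 1))
          push_cast
          rw [h3, h4]
          have h5 := abs_nonneg (s 0)
          have h6 := abs_nonneg (s 1)
          fin_cases i
          · simp only [Fin.zero_eta]; omega
          · simp only [Fin.mk_one]; omega
        refine h2.trans ?_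
        exact_mod_cast h1.trans (le_max_right _ _)
      · refine (hr Q h s hs i).trans ?_
        exact_mod_cast le_max_left _ _
  let allowed : (ℕ → ℕ → ℕ) → Prop := fun g => ∀ P ∈ L,
    ¬ ∀ s ∈ P.supp, g (s 0 + r).toNat (s 1 + r).toNat = (e (P.val s) : ℕ)
  let w := 2 * r + 1
  have hallow : ∀ g g' : ℕ → ℕ → ℕ, wl w g = wl w g' → allowed g → allowed g' := by
    intro g g' hgg hg P hP hs
    refine hg P hP (fun s hs' => ?_)
    rw [← hs s hs']
    have h0 := abs_le.1 (hr P hP s hs' 0)
    have h1 := abs_le.1 (hr P hP s hs' 1)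
    exact wl_inj hgg _ (by omega) _ (by omega)
  let S : Set (List ℕ) := {l | ∃ g : ℕ → ℕ → ℕ, (∀ a b, g a b < k) ∧ l = wl w g ∧ allowed g}
  have hS : S.Finite := by
    have h1 : ({l : List (Fin k) | l.length = w * w}).Finite := List.finite_length_eq _ _
    refine (h1.image (List.map Fin.val)).subset ?_
    rintro l ⟨g, hg, rfl, _⟩
    refine ⟨(List.range (w * w)).map (fun n => (⟨g (n % w) (n / w), hg _ _⟩ : Fin k)), by simp, ?_⟩
    unfold wl
    rw [List.map_map]
    rfl
  refine ⟨w, hS.toFinset.toList, by omega, ?_⟩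
  intro y
  have hmem : ∀ i j : ℤ, (wl w (fun a b => (e (y ![i + a, j + b]) : ℕ)) ∈ hS.toFinset.toList ↔
      allowed (fun a b => (e (y ![i + a, j + b]) : ℕ))) := by
    intro i j
    rw [Finset.mem_toList, Set.Finite.mem_toFinset]
    constructor
    · rintro ⟨g, _, h2, h3⟩
      exact hallow _ _ h2.symm h3
    · intro h
      exact ⟨_, fun a b => (e _).2, rfl, h⟩
  constructor
  · intro hy i j
    rw [hmem]
    intro P hP hs
    refine hy P hP ![i + r, j + r] (fun s hs' => ?_)
    have h2 := hs s hs'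
    have h0 := abs_le.1 (hr P hP s hs' 0)
    have h1 := abs_le.1 (hr P hP s hs' 1)
    have h3 : e (y ![i + ((s 0 + r).toNat : ℤ), j + ((s 1 + r).toNat : ℤ)]) = e (P.val s) :=
      Fin.ext h2
    have h4 := e.injective h3
    rw [← h4]
    congr 1
    funext t
    fin_cases t
    · simp only [Fin.zero_eta, Pi.add_apply, Matrix.cons_val_zero]
      omega
    · simp only [Fin.mk_one, Pi.add_apply, Matrix.cons_val_one, Matrix.cons_val_fin_one]
      omega
  · intro h P hP v hocc
    have h1 := (hmem (v 0 - r) (v 1 - r)).1 (h _ _) P hP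
    refine h1 (fun s hs => ?_)
    have h2 := abs_le.1 (hr P hP s hs 0)
    have h3 := abs_le.1 (hr P hP s hs 1)
    rw [← hocc s hs]
    have h4 : (![v 0 - r + ((s 0 + r).toNat : ℤ), v 1 - r + ((s 1 + r).toNat : ℤ)] :
        Fin 2 → ℤ) = v + s := by
      funext t
      fin_cases t
      · simp only [Fin.zero_eta, Pi.add_apply, Matrix.cons_val_zero]
        omega
      · simp only [Fin.mk_one, Pi.add_apply, Matrix.cons_val_one, Matrix.cons_val_fin_one]
        omega
    simp only
    rw [h4]

end Pool.Agent.Helper785.BG
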